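import Pool.Agent.Lib.MP_a2d8aa_co.Rk.RatGen

/-! The commutation lemma. -/

open Matrix Module

namespace Pool.Agent.Lib.MP_a2d8aa_co.Rk

variable {L : Type*} [Field L] {d : ℕ}

/-- the parametrised vector `(x·e) (Σ τ_j f_j) - (x·Σ τ_j f_j) e`. -/
private noncomputable def gv {K : Subfield L} {ι : Type*} (s : Finset ι) (f : ι → Fin d → K)
    (e : Fin d → K) (x : Fin d → L) (τ : ι → L) : Fin d → L := fun i =>
  (∑ k, x k * (e k : L)) * (∑ j ∈ s, τ j * (f j i : L)) -
    (∑ j ∈ s, τ j * ∑ k, x k * (f j k : L)) * (e i : L)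

private theorem gv_eq {K : Subfield L} {ι : Type*} (s : Finset ι) (f : ι → Fin d → K)
    (e : Fin d → K) (x : Fin d → L) (τ : ι → L) :
    gv s f e x τ = (x ⬝ᵥ fun k => (e k : L)) • (∑ j ∈ s, τ j • fun i => (f j i : L)) -
      (x ⬝ᵥ (∑ j ∈ s, τ j • fun i => (f j i : L))) • fun i => (e i : L) := by
  funext i
  simp only [gv, dotProduct, Pi.sub_apply, Pi.smul_apply, Finset.sum_apply, smul_eq_mul,
    Finset.mul_sum]
  congr 2
  rw [Finset.sum_comm]
  refine Finset.sum_congr rfl fun k _ => Finset.sum_congr rfl fun j _ => ?_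
  ring

/-- the substitution for the second block of variables. -/
private noncomputable def sb {K : Subfield L} {ι : Type*} (s : Finset ι) (f : ι → Fin d → K)
    (e : Fin d → K) (i : Fin d) : MvPolynomial ι (MvPolynomial (Fin d) K) :=
  (∑ k, MvPolynomial.C (MvPolynomial.X k * MvPolynomial.C (e k))) *
      (∑ j ∈ s, MvPolynomial.X j * MvPolynomial.C (MvPolynomial.C (f j i))) -
    (∑ j ∈ s, MvPolynomial.X j * MvPolynomial.C (∑ k, MvPolynomial.X k *
      MvPolynomial.C (f j k))) * MvPolynomial.C (MvPolynomial.C (e i))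

/-- evaluation of the coefficients. -/
private noncomputable def evc {K : Subfield L} (x : Fin d → L) : MvPolynomial (Fin d) K →+* L :=
  (MvPolynomial.aeval x : MvPolynomial (Fin d) K →ₐ[K] L).toRingHom

private theorem evc_apply {K : Subfield L} (x : Fin d → L) (p : MvPolynomial (Fin d) K) :
    evc x p = MvPolynomial.aeval x p := rfl

private theorem evc_C {K : Subfield L} (x : Fin d → L) (c : K) :
    evc x (MvPolynomial.C c) = (c : L) := by
  rw [evc_apply, MvPolynomial.aeval_C]; rfl

private theorem evc_X {K : Subfield L} (x : Fin d → L) (i : Fin d) :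
    evc (K := K) x (MvPolynomial.X i) = x i := by
  rw [evc_apply, MvPolynomial.aeval_X]

/-- evaluation of everything. -/
private noncomputable def evt {K : Subfield L} {ι : Type*} (x : Fin d → L) (τ : ι → L) :
    MvPolynomial ι (MvPolynomial (Fin d) K) →+* L :=
  (MvPolynomial.eval τ).comp (MvPolynomial.map (evc x))

private theorem evt_C {K : Subfield L} {ι : Type*} (x : Fin d → L) (τ : ι → L)
    (p : MvPolynomial (Fin d) K) : evt x τ (MvPolynomial.C p) = evc x p := by
  simp only [evt, RingHom.comp_apply, MvPolynomial.map_C, MvPolynomial.eval_C]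

private theorem evt_X {K : Subfield L} {ι : Type*} (x : Fin d → L) (τ : ι → L) (j : ι) :
    evt (K := K) x τ (MvPolynomial.X j) = τ j := by
  simp only [evt, RingHom.comp_apply, MvPolynomial.map_X, MvPolynomial.eval_X]

private theorem evt_sb {K : Subfield L} {ι : Type*} (s : Finset ι) (f : ι → Fin d → K)
    (e : Fin d → K) (x : Fin d → L) (τ : ι → L) (i : Fin d) :
    evt x τ (sb s f e i) = gv s f e x τ i := by
  simp only [sb, gv, map_sub, map_mul, map_sum, evt_C, evt_X, evc_C, evc_X]

/-- the substitution as a ring homomorphism. -/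
private noncomputable def sbh {K : Subfield L} {ι : Type*} (s : Finset ι) (f : ι → Fin d → K)
    (e : Fin d → K) : MvPolynomial (Fin d ⊕ Fin d) K →+*
      MvPolynomial ι (MvPolynomial (Fin d) K) :=
  MvPolynomial.eval₂Hom (MvPolynomial.C.comp MvPolynomial.C)
    (Sum.elim (fun i => MvPolynomial.C (MvPolynomial.X i)) (sb s f e))

private theorem evt_sbh {K : Subfield L} {ι : Type*} (s : Finset ι) (f : ι → Fin d → K)
    (e : Fin d → K) (Φ : MvPolynomial (Fin d ⊕ Fin d) K) (x : Fin d → L) (τ : ι → L) :
    evt x τ (sbh s f e Φ) = MvPolynomial.aeval (Sum.elim x (gv s f e x τ)) Φ := by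
  have h : (evt x τ).comp (sbh s f e) =
      (MvPolynomial.aeval (Sum.elim x (gv s f e x τ)) :
        MvPolynomial (Fin d ⊕ Fin d) K →ₐ[K] L).toRingHom := by
    apply MvPolynomial.ringHom_ext
    · intro c
      change evt x τ (sbh s f e (MvPolynomial.C c)) = MvPolynomial.aeval _ (MvPolynomial.C c)
      rw [MvPolynomial.aeval_C, sbh, MvPolynomial.coe_eval₂Hom, MvPolynomial.eval₂_C,
        RingHom.comp_apply, evt_C, evc_C]
      rfl
    · intro i
      change evt x τ (sbh s f e (MvPolynomial.X i)) = MvPolynomial.aeval _ (MvPolynomial.X i)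
      rw [MvPolynomial.aeval_X, sbh, MvPolynomial.coe_eval₂Hom, MvPolynomial.eval₂_X]
      rcases i with i | i
      · rw [Sum.elim_inl, Sum.elim_inl, evt_C, evc_X]
      · rw [Sum.elim_inr, Sum.elim_inr, evt_sb]
  exact congrArg (fun g => g Φ) h

/-- the substituted identity. -/
private theorem key [Infinite L] {K : Subfield L} {A B : Submodule L (Fin d → L)}
    {a b : Fin d → L} (ha : IsGen K A a) (hb : IsGen (adj K a) (B ⊓ cp a) b)
    (Φ : MvPolynomial (Fin d ⊕ Fin d) K)
    (h0 : MvPolynomial.aeval (Sum.elim a b) Φ = 0) {ι : Type*} (s : Finset ι)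
    (f : ι → Fin d → K) (e : Fin d → K) (hf : ∀ j, (fun i => (f j i : L)) ∈ B)
    (he : (fun i => (e i : L)) ∈ B) {a' : Fin d → L} (ha' : a' ∈ A) (τ' : ι → L) :
    MvPolynomial.aeval (Sum.elim a' (gv s f e a' τ')) Φ = 0 := by
  -- polynomial in the second block over `K(a)`
  have h1 : ∀ y ∈ B ⊓ cp a, MvPolynomial.aeval (Sum.elim a y) Φ = 0 := by
    let θ : MvPolynomial (Fin d ⊕ Fin d) K →+* MvPolynomial (Fin d) (adj K a) :=
      MvPolynomial.eval₂Hom (MvPolynomial.C.comp (Subfield.inclusion (le_adj K a)))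
        (Sum.elim (fun i => MvPolynomial.C ⟨a i, coord_mem_adj K a i⟩) MvPolynomial.X)
    have hθ : ∀ (y : Fin d → L) (Θ : MvPolynomial (Fin d ⊕ Fin d) K),
        MvPolynomial.aeval y (θ Θ) = MvPolynomial.aeval (Sum.elim a y) Θ := by
      intro y Θ
      have h : ((MvPolynomial.aeval y : MvPolynomial (Fin d) (adj K a) →ₐ[adj K a] L).toRingHom).comp
          θ = (MvPolynomial.aeval (Sum.elim a y) :
            MvPolynomial (Fin d ⊕ Fin d) K →ₐ[K] L).toRingHom := by
        apply MvPolynomial.ringHom_ext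
        · intro c
          change MvPolynomial.aeval y (θ (MvPolynomial.C c)) =
            MvPolynomial.aeval _ (MvPolynomial.C c)
          rw [MvPolynomial.aeval_C, MvPolynomial.coe_eval₂Hom, MvPolynomial.eval₂_C,
            RingHom.comp_apply, MvPolynomial.aeval_C]
          rfl
        · intro i
          change MvPolynomial.aeval y (θ (MvPolynomial.X i)) =
            MvPolynomial.aeval _ (MvPolynomial.X i)
          rw [MvPolynomial.aeval_X, MvPolynomial.coe_eval₂Hom, MvPolynomial.eval₂_X]
          rcases i with i | i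
          · rw [Sum.elim_inl, Sum.elim_inl, MvPolynomial.aeval_C]
            rfl
          · rw [Sum.elim_inr, Sum.elim_inr, MvPolynomial.aeval_X]
      exact congrArg (fun g => g Θ) h
    intro y hy
    rw [← hθ]
    exact hb.2 _ (by rw [hθ]; exact h0) y hy
  -- the vectors `gv` lie in `B`, orthogonal to the first argument
  have hgB : ∀ x τ, gv s f e x τ ∈ B := by
    intro x τ
    rw [gv_eq]
    exact B.sub_mem (B.smul_mem _ (B.sum_mem fun j _ => B.smul_mem _ (hf j))) (B.smul_mem _ he)
  have hgp : ∀ x τ, gv s f e x τ ∈ cp x := by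
    intro x τ
    rw [gv_eq, mem_cp, dotProduct_sub, dotProduct_smul, dotProduct_smul, smul_eq_mul, smul_eq_mul]
    ring
  have h2 : MvPolynomial.map (evc a) (sbh s f e Φ) = 0 := by
    apply MvPolynomial.funext
    intro τ
    rw [map_zero]
    have := evt_sbh s f e Φ a τ
    rw [evt, RingHom.comp_apply] at this
    rw [this]
    exact h1 _ ⟨hgB a τ, hgp a τ⟩
  have h3 : MvPolynomial.map (evc a') (sbh s f e Φ) = 0 := by
    ext m
    rw [MvPolynomial.coeff_map, MvPolynomial.coeff_zero, evc_apply]
    apply ha.2 _ _ _ ha'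
    have := congrArg (MvPolynomial.coeff m) h2
    rw [MvPolynomial.coeff_map, MvPolynomial.coeff_zero, evc_apply] at this
    exact this
  rw [← evt_sbh, evt, RingHom.comp_apply, h3, map_zero]

private theorem exists_e {B : Submodule L (Fin d → L)} {S : Set (Fin d → L)}
    (hS : Submodule.span L S = B) {a' : Fin d → L}
    (h : a' ∉ perp B) : ∃ e ∈ S, a' ⬝ᵥ e ≠ 0 := by
  by_contra hcon
  push Not at hcon
  apply h
  have : B ≤ cp a' := by
    rw [← hS, Submodule.span_le]
    intro x hx
    exact hcon x hx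
  intro x hx
  rw [dotProduct_comm]
  exact this hx

/-- Main claim. -/
private theorem main_claim [Infinite L] {K : Subfield L} {A B : Submodule L (Fin d → L)}
    (hB : Rat K B) {a b : Fin d → L} (ha : IsGen K A a) (hb : IsGen (adj K a) (B ⊓ cp a) b)
    (Φ : MvPolynomial (Fin d ⊕ Fin d) K)
    (h0 : MvPolynomial.aeval (Sum.elim a b) Φ = 0) {a' b' : Fin d → L} (ha' : a' ∈ A)
    (hb' : b' ∈ B) (hab : a' ⬝ᵥ b' = 0) (hap : a' ∉ perp B) :
    MvPolynomial.aeval (Sum.elim a' b') Φ = 0 := by
  obtain ⟨S, hSK, hS⟩ := hB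
  obtain ⟨e, heS, hae⟩ := exists_e hS hap
  have hb'' : b' ∈ Submodule.span L S := by rw [hS]; exact hb'
  rw [Finsupp.mem_span_iff_linearCombination] at hb''
  obtain ⟨l, hl⟩ := hb''
  have hsum : b' = ∑ j ∈ l.support, l j • (j : Fin d → L) := by
    rw [← hl, Finsupp.linearCombination_apply, Finsupp.sum]
  let f : S → Fin d → K := fun j i => ⟨(j : Fin d → L) i, hSK j j.2 i⟩
  let ek : Fin d → K := fun i => ⟨e i, hSK e heS i⟩
  have hf : ∀ j, (fun i => (f j i : L)) = (j : Fin d → L) := fun j => rfl
  have hek : (fun i => (ek i : L)) = e := rfl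
  have h := key ha hb Φ h0 l.support f ek
    (fun j => by rw [hf, ← hS]; exact Submodule.subset_span j.2)
    (by rw [hek, ← hS]; exact Submodule.subset_span heS) ha' (fun j => (a' ⬝ᵥ e)⁻¹ * l j)
  have hg : gv l.support f ek a' (fun j => (a' ⬝ᵥ e)⁻¹ * l j) = b' := by
    rw [gv_eq]
    simp only [hf, hek]
    have : ∑ j ∈ l.support, ((a' ⬝ᵥ e)⁻¹ * l j) • (j : Fin d → L) = (a' ⬝ᵥ e)⁻¹ • b' := by
      rw [hsum, Finset.smul_sum]
      exact Finset.sum_congr rfl fun j _ => by rw [mul_smul]
    rw [this, dotProduct_smul, hab, smul_zero, zero_smul, sub_zero, smul_smul,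
      mul_inv_cancel₀ hae, one_smul]
  rwa [hg] at h

/-- existence of a vector of `A` orthogonal to `v` and not in `B^⊥`. -/
private theorem exists_w {A B : Submodule L (Fin d → L)} (h2 : 2 ≤ pr A B) (v : Fin d → L) :
    ∃ w ∈ A, w ⬝ᵥ v = 0 ∧ w ∉ perp B := by
  by_contra hcon
  push Not at hcon
  have h1 : A ⊓ perp (Submodule.span L {v}) ≤ A ⊓ perp B := by
    rw [perp_span_singleton]
    intro x hx
    exact ⟨hx.1, hcon x hx.1 (by rw [dotProduct_comm]; exact hx.2)⟩
  have h3 : (finrank L (A ⊓ perp (Submodule.span L {v}) : Submodule L (Fin d → L)) : ℤ) ≤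
      finrank L (A ⊓ perp B : Submodule L (Fin d → L)) := by
    exact_mod_cast Submodule.finrank_mono h1
  rw [finrank_inf_perp, finrank_inf_perp] at h3
  have h4 : pr A (Submodule.span L {v}) ≤ 1 := by
    have h5 := finrank_perp (Submodule.span L {v})
    have h6 := Submodule.finrank_le (A ⊔ perp (Submodule.span L {v}))
    rw [Module.finrank_fin_fun] at h6
    have h7 : finrank L (Submodule.span L {v}) ≤ 1 := by
      have := finrank_span_le_card (R := L) ({v} : Set (Fin d → L))
      simpa using this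
    unfold pr
    omega
  omega

/-- clearing denominators. -/
private theorem exists_clear {K : Subfield L} {b : Fin d → L}
    (φ : MvPolynomial (Fin d) (adj K b)) :
    ∃ (Q : MvPolynomial (Fin d) K) (Φ : MvPolynomial (Fin d ⊕ Fin d) K),
      MvPolynomial.aeval b Q ≠ 0 ∧ ∀ x : Fin d → L,
        MvPolynomial.aeval (Sum.elim x b) Φ =
          MvPolynomial.aeval b Q * MvPolynomial.aeval x φ := by
  have hren : ∀ (x : Fin d → L) (P : MvPolynomial (Fin d) K),
      MvPolynomial.aeval (Sum.elim x b) (MvPolynomial.rename Sum.inr P) =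
        MvPolynomial.aeval b P := by
    intro x P
    rw [MvPolynomial.aeval_rename, Sum.elim_comp_inr]
  induction φ using MvPolynomial.induction_on with
  | C c =>
    have hc : (c : L) ∈ IntermediateField.adjoin K (Set.range b) := by
      have hle : adj K b ≤ (IntermediateField.adjoin K (Set.range b)).toSubfield := by
        refine sup_le ?_ ?_
        · intro k hk
          exact (IntermediateField.adjoin K (Set.range b)).algebraMap_mem ⟨k, hk⟩
        · rw [Subfield.closure_le]
          exact IntermediateField.subset_adjoin K _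
      exact hle c.2
    rw [IntermediateField.mem_adjoin_range_iff] at hc
    obtain ⟨r, s, hrs⟩ := hc
    by_cases hs : MvPolynomial.aeval b s = 0
    · refine ⟨1, 0, by simp, fun x => ?_⟩
      rw [map_zero, MvPolynomial.aeval_C]
      change (0 : L) = _ * (c : L)
      rw [hrs, hs, div_zero, mul_zero]
    · refine ⟨s, MvPolynomial.rename Sum.inr r, hs, fun x => ?_⟩
      rw [hren, MvPolynomial.aeval_C]
      change _ = _ * (c : L)
      rw [hrs]
      field_simp
  | add p q hp hq =>
    obtain ⟨Q1, Φ1, hQ1, h1⟩ := hp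
    obtain ⟨Q2, Φ2, hQ2, h2⟩ := hq
    refine ⟨Q1 * Q2, MvPolynomial.rename Sum.inr Q2 * Φ1 + MvPolynomial.rename Sum.inr Q1 * Φ2,
      by rw [map_mul]; exact mul_ne_zero hQ1 hQ2, fun x => ?_⟩
    rw [map_add, map_mul, map_mul, map_mul, map_add, hren, hren, h1, h2]
    ring
  | mul_X p i hp =>
    obtain ⟨Q1, Φ1, hQ1, h1⟩ := hp
    refine ⟨Q1, Φ1 * MvPolynomial.X (Sum.inl i), hQ1, fun x => ?_⟩
    rw [map_mul, map_mul, h1, MvPolynomial.aeval_X, MvPolynomial.aeval_X, Sum.elim_inl]
    ring

/-- Commutation lemma. -/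
theorem commute_gen [Infinite L] {K : Subfield L} {A B : Submodule L (Fin d → L)}
    (hA : Rat K A) (hB : Rat K B) (h2 : 2 ≤ pr A B) {a b : Fin d → L}
    (ha : IsGen K A a) (hb : IsGen (adj K a) (B ⊓ cp a) b) :
    IsGen K B b ∧ IsGen (adj K b) (A ⊓ cp b) a := by
  refine ⟨⟨hb.1.1, ?_⟩, ⟨⟨ha.1, ?_⟩, ?_⟩⟩
  · intro φ hφ b' hb'
    obtain ⟨a', ha', hab, hap⟩ := exists_w h2 b'
    have h := main_claim hB ha hb (MvPolynomial.rename Sum.inr φ)
      (by rw [MvPolynomial.aeval_rename, Sum.elim_comp_inr]; exact hφ) ha' hb' hab hap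
    rwa [MvPolynomial.aeval_rename, Sum.elim_comp_inr] at h
  · change b ⬝ᵥ a = 0
    rw [dotProduct_comm]
    exact hb.1.2
  · intro φ hφ
    obtain ⟨Q, Φ, hQ, hΦ⟩ := exists_clear φ
    have h1 : ∀ a' ∈ A, a' ⬝ᵥ b = 0 → a' ∉ perp B → MvPolynomial.aeval a' φ = 0 := by
      intro a' ha' hab hap
      have h := main_claim hB ha hb Φ (by rw [hΦ, hφ, mul_zero]) ha' hb.1.1 hab hap
      rw [hΦ] at h
      exact (mul_eq_zero.1 h).resolve_left hQ
    intro w hw
    have hwb : w ⬝ᵥ b = 0 := by rw [dotProduct_comm]; exact hw.2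
    by_cases hwp : w ∈ perp B
    · obtain ⟨v, hvA, hvb, hvp⟩ := exists_w h2 b
      let p : Polynomial L := MvPolynomial.aeval
        (fun i => Polynomial.C (w i) + Polynomial.X * Polynomial.C (v i)) φ
      have hp : ∀ t : L, p.eval t = MvPolynomial.aeval (w + t • v) φ := by
        intro t
        have h : ((Polynomial.evalRingHom t).comp
            (MvPolynomial.aeval (fun i => Polynomial.C (w i) + Polynomial.X * Polynomial.C (v i)) :
              MvPolynomial (Fin d) (adj K b) →ₐ[adj K b] Polynomial L).toRingHom) =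
            (MvPolynomial.aeval (w + t • v) : MvPolynomial (Fin d) (adj K b) →ₐ[adj K b] L).toRingHom := by
          apply MvPolynomial.ringHom_ext
          · intro c
            change Polynomial.eval t (MvPolynomial.aeval _ (MvPolynomial.C c)) =
              MvPolynomial.aeval _ (MvPolynomial.C c)
            rw [MvPolynomial.aeval_C, MvPolynomial.aeval_C]
            change Polynomial.eval t (Polynomial.C (c : L)) = (c : L)
            rw [Polynomial.eval_C]
          · intro i
            change Polynomial.eval t (MvPolynomial.aeval _ (MvPolynomial.X i)) =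
              MvPolynomial.aeval _ (MvPolynomial.X i)
            rw [MvPolynomial.aeval_X, MvPolynomial.aeval_X]
            rw [Polynomial.eval_add, Polynomial.eval_mul, Polynomial.eval_C, Polynomial.eval_C,
              Polynomial.eval_X]
            rfl
        exact congrArg (fun g => g φ) h
      have hroot : ∀ t : L, t ≠ 0 → p.IsRoot t := by
        intro t ht
        rw [Polynomial.IsRoot, hp]
        refine h1 _ (A.add_mem hw.1 (A.smul_mem _ hvA)) ?_ ?_
        · rw [add_dotProduct, smul_dotProduct, hwb, hvb, smul_zero, add_zero]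
        · intro hmem
          apply hvp
          have h3 : t • v ∈ perp B := by
            have := (perp B).sub_mem hmem hwp
            rwa [add_sub_cancel_left] at this
          have h4 := (perp B).smul_mem t⁻¹ h3
          rwa [smul_smul, inv_mul_cancel₀ ht, one_smul] at h4
      have hp0 : p = 0 := by
        apply Polynomial.eq_zero_of_infinite_isRoot
        exact (Set.finite_singleton (0 : L)).infinite_compl.mono fun t ht => hroot t ht
      have := hp 0
      rw [hp0, Polynomial.eval_zero, zero_smul, add_zero] at this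
      exact this.symm
    · exact h1 w hw.1 hwb hwp

end Pool.Agent.Lib.MP_a2d8aa_co.Rk
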