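import Pool.Agent.Lib.MP_a2d8aa_co.Rk.RatGen

/-! Existence of generic vectors over small subfields. -/

open Matrix Module

namespace Pool.Agent.Lib.MP_a2d8aa_co.Rk

variable {L : Type*} [Field L] {d : ℕ}

/-- there are arbitrarily many algebraically independent elements over a small subfield. -/
private theorem exists_algInd (hL : Cardinal.aleph0 < Cardinal.mk L) {K : Subfield L}
    (hK : Small K) (r : ℕ) : ∃ t : Fin r → L, AlgebraicIndependent K t := by
  obtain ⟨ι, x, hx⟩ := exists_isTranscendenceBasis' K L
  have hinf : Infinite ι := by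
    rcases isEmpty_or_nonempty ι with hι | hι
    · exfalso
      have hne : Algebra.IsAlgebraic K L := by
        have := hx.isEmpty_iff_isAlgebraic
        exact this.1 hι
      have := Algebra.IsAlgebraic.cardinalMk_le_max K L
      exact absurd (lt_of_le_of_lt this (max_lt hK hL)) (lt_irrefl _)
    · have h := hx.lift_cardinalMk_eq_max_lift
      rw [Cardinal.infinite_iff]
      by_contra hcon
      rw [not_le] at hcon
      simp only [Cardinal.lift_id] at h
      have h2 : Cardinal.mk L ≤ max (Cardinal.mk K) Cardinal.aleph0 := by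
        rw [h]
        refine max_le (max_le (le_max_left _ _) ?_) (le_max_right _ _)
        exact hcon.le.trans (le_max_right _ _)
      exact absurd (lt_of_le_of_lt h2 (max_lt hK hL)) (lt_irrefl _)
  obtain ⟨e⟩ : Nonempty (Fin r ↪ ι) := ⟨(Fin.valEmbedding.trans (Infinite.natEmbedding ι))⟩
  exact ⟨x ∘ e, hx.1.comp e e.injective⟩

/-- a rational subspace is spanned by finitely many `K`-vectors. -/
private theorem exists_span_fin {K : Subfield L} {A : Submodule L (Fin d → L)} (hA : Rat K A) :
    ∃ (r : ℕ) (a : Fin r → Fin d → K),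
      Submodule.span L (Set.range fun j => fun i => ((a j i : K) : L)) = A := by
  obtain ⟨S, hS, hSA⟩ := hA
  have hfg : (Submodule.span L S).FG := IsNoetherian.noetherian _
  obtain ⟨S', hS'S, hS'⟩ := (Submodule.fg_span_iff_fg_span_finset_subset S).1 hfg
  refine ⟨S'.card, fun j i => ⟨(S'.equivFin.symm j : Fin d → L) i,
    hS _ (hS'S (S'.equivFin.symm j).2) i⟩, ?_⟩
  rw [← hSA, hS']
  congr 1
  ext v
  constructor
  · rintro ⟨j, rfl⟩
    exact (S'.equivFin.symm j).2
  · intro hv
    refine ⟨S'.equivFin ⟨v, hv⟩, ?_⟩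
    simp

theorem exists_gen (hL : Cardinal.aleph0 < Cardinal.mk L) {K : Subfield L} (hK : Small K)
    {A : Submodule L (Fin d → L)} (hA : Rat K A) : ∃ c, IsGen K A c := by
  obtain ⟨r, a, ha⟩ := exists_span_fin hA
  obtain ⟨t, ht⟩ := exists_algInd hL hK r
  set av : Fin r → Fin d → L := fun j => fun i => ((a j i : K) : L) with hav
  refine ⟨∑ j, t j • av j, ?_, ?_⟩
  · rw [← ha]
    exact Submodule.sum_mem _ fun j _ => Submodule.smul_mem _ _ (Submodule.subset_span ⟨j, rfl⟩)
  · intro φ hφ w hw
    let g : Fin d → MvPolynomial (Fin r) K := fun i =>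
      ∑ j, MvPolynomial.X j * MvPolynomial.C (a j i)
    have key : ∀ s : Fin r → L, MvPolynomial.aeval s (MvPolynomial.aeval g φ) =
        MvPolynomial.aeval (∑ j, s j • av j) φ := by
      intro s
      rw [← AlgHom.comp_apply]
      congr 1
      apply MvPolynomial.algHom_ext
      intro i
      simp only [AlgHom.comp_apply, MvPolynomial.aeval_X, g, map_sum, map_mul,
        MvPolynomial.aeval_C, Finset.sum_apply, Pi.smul_apply, smul_eq_mul, hav]
      rfl
    have h0 : MvPolynomial.aeval g φ = 0 := by
      have h1 := key t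
      rw [hφ] at h1
      exact (injective_iff_map_eq_zero _).1 ht _ h1
    rw [← ha] at hw
    obtain ⟨s, hs⟩ := (Submodule.mem_span_range_iff_exists_fun L).1 hw
    rw [← hs, ← key s, h0, map_zero]

theorem Small.adj (hL : Cardinal.aleph0 < Cardinal.mk L) {K : Subfield L} (hK : Small K)
    (c : Fin d → L) : Small (adj K c) := by
  have h1 : Rk.adj K c = Subfield.closure ((K : Set L) ∪ Set.range c) := by
    rw [Rk.adj, Subfield.closure_union, Subfield.closure_eq]
  unfold Small
  rw [h1]
  refine lt_of_le_of_lt (Subfield.cardinalMk_closure_le_max _) (max_lt ?_ hL)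
  refine lt_of_le_of_lt (Cardinal.mk_union_le _ _) ?_
  refine Cardinal.add_lt_of_lt hL.le hK ?_
  exact lt_of_le_of_lt (Set.countable_range c).le_aleph0 hL

end Pool.Agent.Lib.MP_a2d8aa_co.Rk
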