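import Pool.Agent.Lib.MP_a2d8aa_co.Rk.CL
import Pool.Agent.Lib.MP_a2d8aa_co.Rk.Exist

/-! Systems and the pairing-rank inequality. -/

open Matrix Module

namespace Pool.Agent.Lib.MP_a2d8aa_co.Rk

variable {L : Type*} [Field L] {d : ℕ}

/-- One step: adding a generic vector `c` of a space of level `a`. -/
def stepSet (S : Set (Submodule L (Fin d → L) × ℤ)) (a : ℤ) (c : Fin d → L) :
    Set (Submodule L (Fin d → L) × ℤ) :=
  {x | ∃ y ∈ S, y.2 ≤ a ∧ (x = y ∨ x = (y.1 ⊓ cp c, y.2 - 1))}

/-- Systems of length `m`. -/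
inductive Sys (K0 : Subfield L) :
    ℕ → Subfield L → Set (Submodule L (Fin d → L) × ℤ) → Prop
  | base : Sys K0 0 K0 {((⊤ : Submodule L (Fin d → L)), (d : ℤ))}
  | step {m : ℕ} {K : Subfield L} {S : Set (Submodule L (Fin d → L) × ℤ)}
      {A C : Submodule L (Fin d → L)} {a : ℤ} {c : Fin d → L} :
      Sys K0 m K S → (A, a) ∈ S → A ≤ C → Rat K C → IsGen K C c →
      Sys K0 (m + 1) (adj K c) (stepSet S a c)

section basics

theorem mem_stepSet_keep {S : Set (Submodule L (Fin d → L) × ℤ)} {a : ℤ} {c : Fin d → L}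
    {A : Submodule L (Fin d → L)} {x : ℤ} (h : (A, x) ∈ S) (hx : x ≤ a) :
    (A, x) ∈ stepSet S a c := ⟨(A, x), h, hx, Or.inl rfl⟩

theorem mem_stepSet_cut {S : Set (Submodule L (Fin d → L) × ℤ)} {a : ℤ} {c : Fin d → L}
    {A : Submodule L (Fin d → L)} {x : ℤ} (h : (A, x + 1) ∈ S) (hx : x + 1 ≤ a) :
    (A ⊓ cp c, x) ∈ stepSet S a c :=
  ⟨(A, x + 1), h, hx, Or.inr (by simp)⟩

theorem of_mem_stepSet {S : Set (Submodule L (Fin d → L) × ℤ)} {a : ℤ} {c : Fin d → L}
    {A : Submodule L (Fin d → L)} {x : ℤ} (h : (A, x) ∈ stepSet S a c) :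
    ((A, x) ∈ S ∧ x ≤ a) ∨ ∃ B, (B, x + 1) ∈ S ∧ x + 1 ≤ a ∧ A = B ⊓ cp c := by
  obtain ⟨⟨B, y⟩, hB, hy, h1 | h1⟩ := h
  · left
    simp only [Prod.mk.injEq] at h1
    obtain ⟨rfl, rfl⟩ := h1
    exact ⟨hB, hy⟩
  · right
    simp only [Prod.mk.injEq] at h1
    obtain ⟨rfl, rfl⟩ := h1
    refine ⟨B, ?_, ?_, rfl⟩
    · simpa using hB
    · simpa using hy

theorem Sys.small (hL : Cardinal.aleph0 < Cardinal.mk L) {K0 : Subfield L} (hK0 : Small K0)
    {m : ℕ} {K : Subfield L} {S : Set (Submodule L (Fin d → L) × ℤ)} (h : Sys K0 m K S) :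
    Small K := by
  induction h with
  | base => exact hK0
  | step _ _ _ _ _ ih => exact Small.adj hL ih _

theorem Sys.rat {K0 : Subfield L}
    {m : ℕ} {K : Subfield L} {S : Set (Submodule L (Fin d → L) × ℤ)} (h : Sys K0 m K S) :
    ∀ {A : Submodule L (Fin d → L)} {a : ℤ}, (A, a) ∈ S → Rat K A := by
  induction h with
  | base =>
    intro A a h
    simp only [Set.mem_singleton_iff, Prod.mk.injEq] at h
    rw [h.1]; exact Rat.top _
  | step _ _ _ _ _ ih =>
    intro A a h
    rcases of_mem_stepSet h with ⟨h1, _⟩ | ⟨B, h1, _, rfl⟩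
    · exact (ih h1).mono (le_adj _ _)
    · exact (ih h1).cut _

/-- The step with a generic vector of a member of the system. -/
theorem Sys.step' {K0 : Subfield L} {m : ℕ} {K : Subfield L}
    {S : Set (Submodule L (Fin d → L) × ℤ)} (h : Sys K0 m K S)
    {A : Submodule L (Fin d → L)} {a : ℤ} {c : Fin d → L} (hA : (A, a) ∈ S) (hc : IsGen K A c) :
    Sys K0 (m + 1) (adj K c) (stepSet S a c) :=
  Sys.step h hA le_rfl (h.rat hA) hc

/-- Reduction of levels. -/
theorem Sys.reduce {K0 : Subfield L}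
    {m : ℕ} {K : Subfield L} {S : Set (Submodule L (Fin d → L) × ℤ)} (h : Sys K0 m K S) :
    ∀ {A B : Submodule L (Fin d → L)} {a b x : ℤ}, (A, a) ∈ S → (B, b) ∈ S → b ≤ x → x ≤ a →
      ∃ A' ≤ A, (A', x) ∈ S := by
  induction h with
  | base =>
    intro A B a b x hA hB hbx hxa
    simp only [Set.mem_singleton_iff, Prod.mk.injEq] at hA hB
    refine ⟨A, le_rfl, ?_⟩
    simp only [Set.mem_singleton_iff, Prod.mk.injEq]
    exact ⟨hA.1, by omega⟩
  | @step m K S A₀ C₀ a₀ c hs hA₀ hle₀ hC₀ hc ih =>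
    intro A B a b x hA hB hbx hxa
    have hB' : ∃ B' b', (B', b') ∈ S ∧ b' ≤ b + 1 ∧ b' ≤ a₀ := by
      rcases of_mem_stepSet hB with ⟨h1, h2⟩ | ⟨B1, h1, h2, _⟩
      · exact ⟨B, b, h1, by omega, h2⟩
      · exact ⟨B1, b + 1, h1, le_rfl, h2⟩
    obtain ⟨B', b', hB'S, hb'1, hb'2⟩ := hB'
    rcases of_mem_stepSet hA with ⟨h1, h2⟩ | ⟨A1, h1, h2, rfl⟩
    · rcases hxa.lt_or_eq with hlt | rfl
      · obtain ⟨A2, hA2, hA2S⟩ := ih h1 hB'S (x := x + 1) (by omega) (by omega)
        exact ⟨A2 ⊓ cp c, inf_le_left.trans hA2, mem_stepSet_cut hA2S (by omega)⟩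
      · exact ⟨A, le_rfl, mem_stepSet_keep h1 h2⟩
    · obtain ⟨A2, hA2, hA2S⟩ := ih h1 hB'S (x := x + 1) (by omega) (by omega)
      exact ⟨A2 ⊓ cp c, inf_le_inf_right _ hA2, mem_stepSet_cut hA2S (by omega)⟩

end basics

/-- The inequality for all systems of length `< n`. -/
def PCB (d : ℕ) (K0 : Subfield L) (n : ℕ) : Prop :=
  ∀ m < n, ∀ (K : Subfield L) (S : Set (Submodule L (Fin d → L) × ℤ)), Sys K0 m K S →
    ∀ ⦃A B : Submodule L (Fin d → L)⦄ ⦃a b : ℤ⦄, (A, a) ∈ S → (B, b) ∈ S → min a b ≤ pr A B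

/-- The failure predicate. -/
def Fail (g : ℤ) : ℕ → Subfield L → List (Submodule L (Fin d → L)) → Prop
  | 0, _, J => ∃ S T, J = [S, T] ∧ pr S T < g
  | (k + 1), K, J => ∃ A J', J = A :: J' ∧
      ∃ c, IsGen K A c ∧ Fail g k (adj K c) (J'.map (· ⊓ cp c))

theorem adj_mono {K K' : Subfield L} (h : K ≤ K') (c : Fin d → L) : adj K c ≤ adj K' c :=
  sup_le_sup_right h _

theorem Fail.mono {g : ℤ} : ∀ {k : ℕ} {K K' : Subfield L}, K ≤ K' →
    ∀ {J : List (Submodule L (Fin d → L))}, Fail g k K' J → Fail g k K J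
  | 0, _, _, _, _, h => h
  | (k + 1), K, K', hK, J, h => by
    obtain ⟨A, J', rfl, c, hc, hf⟩ := h
    exact ⟨A, J', rfl, c, hc.mono hK, hf.mono (adj_mono hK c)⟩

theorem Fail.length {g : ℤ} : ∀ {k : ℕ} {K : Subfield L}
    {J : List (Submodule L (Fin d → L))}, Fail g k K J → J.length = k + 2
  | 0, _, _, h => by
    obtain ⟨S, T, rfl, _⟩ := h
    rfl
  | (k + 1), K, J, h => by
    obtain ⟨A, J', rfl, c, hc, hf⟩ := h
    have := hf.length
    simp only [List.length_map] at this
    simp [this]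

theorem inf_cp_comm (A : Submodule L (Fin d → L)) (a b : Fin d → L) :
    A ⊓ cp a ⊓ cp b = A ⊓ cp b ⊓ cp a := inf_right_comm _ _ _

theorem map_inf_cp_comm (J : List (Submodule L (Fin d → L))) (a b : Fin d → L) :
    (J.map (· ⊓ cp a)).map (· ⊓ cp b) = (J.map (· ⊓ cp b)).map (· ⊓ cp a) := by
  rw [List.map_map, List.map_map]
  apply List.map_congr_left
  intro A _
  exact inf_cp_comm A a b

theorem pr_le_zero_of_le {A B : Submodule L (Fin d → L)} (h : A ≤ perp B) : pr A B ≤ 0 := by
  unfold pr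
  rw [sup_of_le_right h]
  simp

/-- Swap of the two leading elements. -/
theorem Fail.swap [Infinite L] {g : ℤ} {k : ℕ} {K : Subfield L}
    {A B : Submodule L (Fin d → L)} {J : List (Submodule L (Fin d → L))}
    (hA : Rat K A) (hB : Rat K B) (h2 : 2 ≤ pr A B) (h : Fail g (k + 2) K (A :: B :: J)) :
    Fail g (k + 2) K (B :: A :: J) := by
  obtain ⟨A', J', hJ, a, ha, hf⟩ := h
  simp only [List.cons.injEq] at hJ
  obtain ⟨rfl, rfl⟩ := hJ
  obtain ⟨B', J'', hJ, b, hb, hf⟩ := hf
  simp only [List.map_cons, List.cons.injEq] at hJ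
  obtain ⟨rfl, rfl⟩ := hJ
  obtain ⟨hb', ha'⟩ := commute_gen hA hB h2 ha hb
  refine ⟨B, A :: J, rfl, b, hb', A ⊓ cp b, J.map (· ⊓ cp b), by simp, a, ha', ?_⟩
  rw [adj_comm, map_inf_cp_comm]
  exact hf

/-- Swap by the triangle lemma. -/
theorem Fail.swap_one (hL : Cardinal.aleph0 < Cardinal.mk L) {K : Subfield L} (hK : Small K)
    {g : ℤ} {F S T : Submodule L (Fin d → L)} (hF : Rat K F) (hS : Rat K S) (hT : Rat K T)
    (hg : 1 ≤ g) (h1 : g + 1 ≤ pr F S) (h2 : g + 1 ≤ pr F T) (h3 : g + 1 ≤ pr S T)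
    (h : Fail g 1 K [F, S, T]) : Fail g 1 K [S, F, T] := by
  obtain ⟨A', J', hJ, c, hc, hf⟩ := h
  simp only [List.cons.injEq] at hJ
  obtain ⟨rfl, rfl⟩ := hJ
  obtain ⟨S', T', hJ, hlt⟩ := hf
  simp only [List.map_cons, List.map_nil, List.cons.injEq, and_true] at hJ
  obtain ⟨rfl, rfl⟩ := hJ
  have hD := hc.D2 hS hT hF (D2_of_lt (by omega))
  have h4 := pr_cut_cut_ge S T c
  obtain ⟨h5, h6⟩ := triangle hD (by omega) (by omega)
  obtain ⟨u, hu⟩ := exists_gen hL hK hS
  refine ⟨S, [F, T], rfl, u, hu, F ⊓ cp u, T ⊓ cp u, rfl, ?_⟩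
  have hu1 : u ∉ perp F := fun hu1 => by
    have := pr_le_zero_of_le (hu.le_of_mem hF.perp hu1)
    rw [pr_comm] at this
    omega
  have hu2 : u ∉ perp T := fun hu1 => by
    have := pr_le_zero_of_le (hu.le_of_mem hT.perp hu1)
    omega
  rw [pr_of_D2 (h6 u hu.1) hu1 hu2]
  omega

omit [Field L] in
theorem infinite_of (hL : Cardinal.aleph0 < Cardinal.mk L) : Infinite L :=
  Cardinal.infinite_iff.2 hL.le

/-- `Fail` is invariant under permutations. -/
theorem Fail.perm (hL : Cardinal.aleph0 < Cardinal.mk L) {K0 : Subfield L} (hK0 : Small K0)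
    {g : ℤ} (hg : 1 ≤ g) : ∀ {k m : ℕ} {K : Subfield L} {S : Set (Submodule L (Fin d → L) × ℤ)}
    {e : ℤ}, Sys K0 m K S → e - k = g → PCB d K0 (m + k) →
    ∀ {J J' : List (Submodule L (Fin d → L))}, J.Perm J' → (∀ X ∈ J, (X, e) ∈ S) →
      Fail g k K J → Fail g k K J' := by
  have := infinite_of hL
  intro k
  induction k with
  | zero =>
    intro m K S e hs he hP J J' hp
    induction hp with
    | nil => intro _ h; exact h
    | cons x hp _ =>
      intro _ h
      obtain ⟨X, Y, hJ, hlt⟩ := h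
      simp only [List.cons.injEq] at hJ
      obtain ⟨rfl, rfl⟩ := hJ
      have := List.singleton_perm.1 hp
      rw [← this] 
      exact ⟨x, Y, rfl, hlt⟩
    | swap x y l =>
      intro _ h
      obtain ⟨X, Y, hJ, hlt⟩ := h
      simp only [List.cons.injEq] at hJ
      obtain ⟨rfl, rfl, rfl⟩ := hJ
      exact ⟨x, y, rfl, by rw [pr_comm]; exact hlt⟩
    | trans h1 h2 ih1 ih2 =>
      intro hX h
      exact ih2 (fun X hX' => hX X (h1.mem_iff.2 hX')) (ih1 hX h)
  | succ k ihk =>
    intro m K S e hs he hP J J' hp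
    induction hp with
    | nil => intro _ h; exact h
    | cons x hp _ =>
      intro hX h
      obtain ⟨A, J1, hJ, c, hc, hf⟩ := h
      simp only [List.cons.injEq] at hJ
      obtain ⟨rfl, rfl⟩ := hJ
      refine ⟨x, _, rfl, c, hc, ?_⟩
      have hs' := Sys.step' hs (hX x (List.mem_cons_self)) hc
      refine ihk hs' (e := e - 1) (by push_cast at he; omega)
        (by have := hP; rwa [show m + 1 + k = m + (k + 1) by omega]) (hp.map _) ?_ hf
      intro X hX'
      rw [List.mem_map] at hX'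
      obtain ⟨Y, hY, rfl⟩ := hX'
      exact mem_stepSet_cut (by simpa using hX Y (List.mem_cons_of_mem _ hY)) (by omega)
    | swap x y l =>
      intro hX h
      have hx := hX x (by simp)
      have hy := hX y (by simp)
      have hPm := hP m (by omega) K S hs
      rcases k with _ | k
      · have hlen := h.length
        simp only [List.length_cons] at hlen
        have hl : l.length = 1 := by omega
        obtain ⟨T, rfl⟩ := List.length_eq_one_iff.1 hl
        have hT := hX T (by simp)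
        have e1 := hPm hy hx
        have e2 := hPm hy hT
        have e3 := hPm hx hT
        rw [min_self] at e1 e2 e3
        push_cast at he
        exact Fail.swap_one hL (hs.small hL hK0) (hs.rat hy) (hs.rat hx) (hs.rat hT) hg
          (by omega) (by omega) (by omega) h
      · have e1 := hPm hy hx
        rw [min_self] at e1
        push_cast at he
        exact Fail.swap (hs.rat hy) (hs.rat hx) (by omega) h
    | trans h1 h2 ih1 ih2 =>
      intro hX h
      exact ih2 (fun X hX' => hX X (h1.mem_iff.2 hX')) (ih1 hX h)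

/-- No failure when the inequality is known up to the right length. -/
theorem not_fail_of_PCB {K0 : Subfield L} {g : ℤ} :
    ∀ {k m : ℕ} {K : Subfield L} {S : Set (Submodule L (Fin d → L) × ℤ)} {e : ℤ},
    Sys K0 m K S → e - k = g → PCB d K0 (m + k + 1) →
    ∀ {J : List (Submodule L (Fin d → L))}, (∀ X ∈ J, (X, e) ∈ S) → ¬ Fail g k K J := by
  intro k
  induction k with
  | zero =>
    intro m K S e hs he hP J hX h
    obtain ⟨X, Y, rfl, hlt⟩ := h
    have := hP m (by omega) K S hs (hX X (by simp)) (hX Y (by simp))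
    rw [min_self] at this
    push_cast at he
    omega
  | succ k ihk =>
    intro m K S e hs he hP J hX h
    obtain ⟨A, J1, rfl, c, hc, hf⟩ := h
    have hs' := Sys.step' hs (hX A (List.mem_cons_self)) hc
    refine ihk hs' (e := e - 1) (by push_cast at he; omega)
      (by rwa [show m + 1 + k + 1 = m + (k + 1) + 1 by omega]) ?_ hf
    intro X hX'
    rw [List.mem_map] at hX'
    obtain ⟨Y, hY, rfl⟩ := hX'
    exact mem_stepSet_cut (by simpa using hX Y (List.mem_cons_of_mem _ hY)) (by omega)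

/-- Lemma D of the note. -/
theorem lemmaD (hL : Cardinal.aleph0 < Cardinal.mk L) {K0 : Subfield L} (hK0 : Small K0)
    {g : ℤ} (hg : 1 ≤ g) : ∀ {k m : ℕ} {K : Subfield L} {S : Set (Submodule L (Fin d → L) × ℤ)}
    {e : ℤ} {Ah Ah' : Submodule L (Fin d → L)} {ch : Fin d → L}
    {J0 J1 : List (Submodule L (Fin d → L))},
    Sys K0 m K S → Rat K Ah → Ah' ≤ Ah → (Ah', e + 1) ∈ S → IsGen K Ah ch →
    (∀ X ∈ J0, (X, e + 1) ∈ S) → (∀ X ∈ J1, (X, e) ∈ S) → e - k = g → PCB d K0 (m + k + 1) →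
    Fail g k (adj K ch) (J0.map (· ⊓ cp ch) ++ J1) → J1 = [] ∧ Fail g (k + 1) K (Ah' :: J0) := by
  have := infinite_of hL
  intro k
  induction k with
  | zero =>
    intro m K S e Ah Ah' ch J0 J1 hs hAh hle hAh'S hch hJ0 hJ1 he hP hF
    have hPm := hP m (by omega) K S hs
    have hKs := hs.small hL hK0
    obtain ⟨X, Y, hJ, hlt⟩ := hF
    push_cast at he
    rcases J0 with _ | ⟨S1, _ | ⟨T1, J0⟩⟩
    · simp only [List.map_nil, List.nil_append] at hJ
      subst hJ
      exfalso
      have := hPm (hJ1 X (by simp)) (hJ1 Y (by simp))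
      rw [min_self] at this
      omega
    · simp only [List.map_cons, List.map_nil, List.cons_append, List.nil_append,
        List.cons.injEq] at hJ
      obtain ⟨rfl, rfl⟩ := hJ
      exfalso
      have hSS := hJ0 S1 (by simp)
      have hYS := hJ1 Y (by simp)
      have h1 := hPm hSS hYS
      rw [min_eq_right (by omega)] at h1
      rw [pr_comm] at hlt h1
      have hmem := mem_of_pr_cut_lt (show pr Y (S1 ⊓ cp ch) < pr Y S1 by omega)
      have hle2 := hch.le_of_mem ((hs.rat hYS).sup (hs.rat hSS).perp) hmem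
      have h2 := pr_le_of_le_sup hle2
      have h3 := pr_mono hle (le_refl S1)
      have h4 := hPm hAh'S hSS
      rw [min_self] at h4
      have h5 := pr_cut_ge Y S1 ch
      omega
    · simp only [List.map_cons, List.cons_append, List.cons.injEq] at hJ
      obtain ⟨rfl, rfl, hJ⟩ := hJ
      rw [List.append_eq_nil_iff, List.map_eq_nil_iff] at hJ
      obtain ⟨rfl, rfl⟩ := hJ
      refine ⟨rfl, ?_⟩
      have hSS := hJ0 S1 (by simp)
      have hTS := hJ0 T1 (by simp)
      have h1 := hPm hSS hTS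
      have h2 := hPm hAh'S hSS
      have h3 := hPm hAh'S hTS
      rw [min_self] at h1 h2 h3
      have hD := hch.D2 (hs.rat hSS) (hs.rat hTS) hAh (D2_of_lt (by omega))
      have h4 := pr_cut_cut_ge S1 T1 ch
      obtain ⟨u, hu⟩ := exists_gen hL hKs (hs.rat hAh'S)
      refine ⟨Ah', [S1, T1], rfl, u, hu, S1 ⊓ cp u, T1 ⊓ cp u, rfl, ?_⟩
      have hu1 : u ∉ perp S1 := fun hu1 => by
        have := pr_le_zero_of_le (hu.le_of_mem (hs.rat hSS).perp hu1)
        omega
      have hu2 : u ∉ perp T1 := fun hu1 => by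
        have := pr_le_zero_of_le (hu.le_of_mem (hs.rat hTS).perp hu1)
        omega
      rw [pr_of_D2 (hD u (hle hu.1)) hu1 hu2]
      omega
  | succ k ihk =>
    intro m K S e Ah Ah' ch J0 J1 hs hAh hle hAh'S hch hJ0 hJ1 he hP hF
    have hPm := hP m (by omega) K S hs
    push_cast at he
    rcases J0 with _ | ⟨A, J0⟩
    · simp only [List.map_nil, List.nil_append] at hF
      exact absurd (hF.mono (le_adj _ _)) (not_fail_of_PCB hs (by push_cast; omega) hP hJ1)
    · obtain ⟨A', J', hJ, c1, hc1, hF⟩ := hF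
      simp only [List.map_cons, List.cons_append, List.cons.injEq] at hJ
      obtain ⟨rfl, rfl⟩ := hJ
      have hAS := hJ0 A (by simp)
      have h1 := hPm hAh'S hAS
      rw [min_self] at h1
      have h2 := pr_mono hle (le_refl A)
      obtain ⟨hc1', hch'⟩ := commute_gen hAh (hs.rat hAS) (by omega) hch hc1
      have hs' := Sys.step' hs hAS hc1'
      have key := ihk (e := e - 1) (Ah := Ah ⊓ cp c1) (Ah' := Ah' ⊓ cp c1) (ch := ch)
        (J0 := J0.map (· ⊓ cp c1)) (J1 := J1.map (· ⊓ cp c1)) hs' (hAh.cut c1)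
        (inf_le_inf_right _ hle)
        (by
          have := mem_stepSet_cut (c := c1) hAh'S (le_refl (e + 1))
          simpa using this) hch'
        (by
          intro X hX
          rw [List.mem_map] at hX
          obtain ⟨Y, hY, rfl⟩ := hX
          have := mem_stepSet_cut (c := c1) (hJ0 Y (List.mem_cons_of_mem _ hY)) (le_refl (e + 1))
          simpa using this)
        (by
          intro X hX
          rw [List.mem_map] at hX
          obtain ⟨Y, hY, rfl⟩ := hX
          exact mem_stepSet_cut (c := c1) (by simpa using hJ1 Y hY) (by omega))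
        (by omega) (by rwa [show m + 1 + k + 1 = m + (k + 1) + 1 by omega])
        (by
          rw [adj_comm, map_inf_cp_comm, ← List.map_append]
          exact hF)
      obtain ⟨hJ1', hF'⟩ := key
      refine ⟨List.map_eq_nil_iff.1 hJ1', ?_⟩
      have hF2 : Fail g (k + 2) K (A :: Ah' :: J0) :=
        ⟨A, Ah' :: J0, rfl, c1, hc1', by simpa using hF'⟩
      exact Fail.swap (hs.rat hAS) (hs.rat hAh'S) (by rw [pr_comm]; omega) hF2

/-- `finrank (U ⊓ c^⊥) = finrank U - 1` for non-isotropic `c ∈ U`. -/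
theorem finrank_cut_self {U : Submodule L (Fin d → L)} {c : Fin d → L} (hc : c ∈ U)
    (hcc : c ⬝ᵥ c ≠ 0) :
    finrank L (U ⊓ cp c : Submodule L (Fin d → L)) + 1 = finrank L U := by
  have h1 : (U ⊓ cp c) ⊔ Submodule.span L {c} = U := by
    apply le_antisymm
    · refine sup_le inf_le_left ?_
      rw [Submodule.span_singleton_le_iff_mem]
      exact hc
    · intro x hx
      rw [Submodule.mem_sup]
      refine ⟨x - (c ⬝ᵥ x / c ⬝ᵥ c) • c, ⟨?_, ?_⟩, (c ⬝ᵥ x / c ⬝ᵥ c) • c, ?_, by simp⟩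
      · exact U.sub_mem hx (U.smul_mem _ hc)
      · rw [SetLike.mem_coe, mem_cp, dotProduct_sub, dotProduct_smul, smul_eq_mul,
          div_mul_cancel₀ _ hcc, sub_self]
      · exact Submodule.smul_mem _ _ (Submodule.mem_span_singleton_self c)
  have h2 : (U ⊓ cp c) ⊓ Submodule.span L {c} = ⊥ := by
    rw [eq_bot_iff]
    rintro x ⟨⟨_, hx⟩, hx2⟩
    rw [SetLike.mem_coe, Submodule.mem_span_singleton] at hx2
    obtain ⟨r, rfl⟩ := hx2
    rw [SetLike.mem_coe, mem_cp, dotProduct_smul, smul_eq_mul] at hx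
    rcases mul_eq_zero.1 hx with h | h
    · simp [h]
    · exact absurd h hcc
  have h3 := Submodule.finrank_sup_add_finrank_inf_eq (U ⊓ cp c) (Submodule.span L {c})
  rw [h1, h2, finrank_bot] at h3
  have h4 : c ≠ 0 := by
    rintro rfl
    exact hcc (dotProduct_zero _)
  rw [finrank_span_singleton h4] at h3
  omega

/-- The base case: no failure for the whole space. -/
theorem base_not_fail (hL : Cardinal.aleph0 < Cardinal.mk L) {g : ℤ} (hg : 1 ≤ g) :
    ∀ {k : ℕ} {K : Subfield L} {U : Submodule L (Fin d → L)}, Small K → Rat K U →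
    U ⊓ perp U = ⊥ → (∃ x ∈ U, x ⬝ᵥ x ≠ 0) → (finrank L U : ℤ) = k + g →
    ∀ {J : List (Submodule L (Fin d → L))}, (∀ X ∈ J, X = U) → ¬ Fail g k K J := by
  have := infinite_of hL
  intro k
  induction k with
  | zero =>
    intro K U hK hU hb hx hd J hJ hF
    obtain ⟨S, T, rfl, hlt⟩ := hF
    rw [hJ S (by simp), hJ T (by simp)] at hlt
    have h1 := finrank_inf_perp U U
    rw [hb, finrank_bot] at h1
    push_cast at hd h1
    omega
  | succ k ih =>
    intro K U hK hU hb hx hd J hJ hF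
    obtain ⟨x, hxU, hxx⟩ := hx
    obtain ⟨A, J', rfl, c, hc, hF⟩ := hF
    obtain rfl := hJ A (by simp)
    have hcc := hc.self_ne hxU hxx
    have hfr := finrank_cut_self hc.1 hcc
    push_cast at hd
    have h1 := finrank_inf_perp A A
    rw [hb, finrank_bot] at h1
    push_cast at h1
    refine ih (U := A ⊓ cp c) (hK.adj hL c) (hU.cut c) ?_ ?_ ?_ ?_ hF
    · rw [eq_bot_iff]
      rintro y ⟨⟨hyA, hyc⟩, hy⟩
      rw [perp_inf_cp, SetLike.mem_coe, Submodule.mem_sup] at hy
      obtain ⟨z, hz, w, hw, rfl⟩ := hy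
      rw [Submodule.mem_span_singleton] at hw
      obtain ⟨r, rfl⟩ := hw
      have h2 : c ⬝ᵥ (z + r • c) = 0 := hyc
      rw [dotProduct_add, hz c hc.1, dotProduct_smul, smul_eq_mul, zero_add] at h2
      rcases mul_eq_zero.1 h2 with h | h
      · subst h
        rw [zero_smul, add_zero] at hyA ⊢
        have : z ∈ A ⊓ perp A := ⟨hyA, hz⟩
        rw [hb] at this
        exact this
      · exact absurd h hcc
    · by_contra hcon
      push Not at hcon
      obtain ⟨b, hb'⟩ := exists_gen hL (hK.adj hL c) (hU.cut c)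
      obtain ⟨hbA, _⟩ := commute_gen hU hU (by omega) hc hb'
      exact hbA.self_ne hxU hxx (hcon b hb'.1)
    · omega
    · intro X hX
      rw [List.mem_map] at hX
      obtain ⟨Y, hY, rfl⟩ := hX
      rw [hJ Y (List.mem_cons_of_mem _ hY)]

/-- Sorting a list of elements of a step set. -/
theorem exists_sorted {S : Set (Submodule L (Fin d → L) × ℤ)} {a : ℤ} {c : Fin d → L} {e : ℤ} :
    ∀ J : List (Submodule L (Fin d → L)), (∀ X ∈ J, (X, e) ∈ stepSet S a c) →
      ∃ J0 J1 : List (Submodule L (Fin d → L)), J.Perm (J0.map (· ⊓ cp c) ++ J1) ∧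
        (∀ X ∈ J0, (X, e + 1) ∈ S ∧ e + 1 ≤ a) ∧ (∀ X ∈ J1, (X, e) ∈ S) := by
  intro J
  induction J with
  | nil => intro _; exact ⟨[], [], by simp, by simp, by simp⟩
  | cons X J ih =>
    intro hJ
    obtain ⟨J0, J1, hp, h0, h1⟩ := ih (fun Y hY => hJ Y (List.mem_cons_of_mem _ hY))
    rcases of_mem_stepSet (hJ X List.mem_cons_self) with ⟨h, _⟩ | ⟨B, h, h', rfl⟩
    · refine ⟨J0, X :: J1, ?_, h0, ?_⟩
      · exact (hp.cons X).trans List.perm_middle.symm
      · intro Y hY
        rcases List.mem_cons.1 hY with rfl | hY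
        · exact h
        · exact h1 Y hY
    · refine ⟨B :: J0, J1, ?_, ?_, h1⟩
      · simp only [List.map_cons, List.cons_append]
        exact hp.cons _
      · intro Y hY
        rcases List.mem_cons.1 hY with rfl | hY
        · exact ⟨h, h'⟩
        · exact h0 Y hY

/-- Claim Q of the note. -/
theorem not_fail (hL : Cardinal.aleph0 < Cardinal.mk L) {K0 : Subfield L} (hK0 : Small K0)
    {g : ℤ} (hg : 1 ≤ g) {m : ℕ} {K : Subfield L} {S : Set (Submodule L (Fin d → L) × ℤ)}
    (hs : Sys K0 m K S) : ∀ {k : ℕ} {e : ℤ} {J : List (Submodule L (Fin d → L))},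
    (∀ X ∈ J, (X, e) ∈ S) → 1 ≤ k → e - k = g → PCB d K0 (m + k) → ¬ Fail g k K J := by
  induction hs with
  | base =>
    intro k e J hJ hk he hP hF
    have hlen := hF.length
    have hJ' : ∀ X ∈ J, X = ⊤ ∧ e = d := by
      intro X hX
      have := hJ X hX
      simpa only [Set.mem_singleton_iff, Prod.mk.injEq] using this
    have hed : e = d := by
      obtain ⟨X, hX⟩ := List.exists_mem_of_length_pos (l := J) (by omega)
      exact (hJ' X hX).2
    have hd : 0 < d := by omega
    refine base_not_fail hL hg (U := ⊤) hK0 (Rat.top _) ?_ ?_ ?_ (fun X hX => (hJ' X hX).1) hF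
    · rw [perp_top]; simp
    · refine ⟨Pi.single ⟨0, hd⟩ 1, Submodule.mem_top, ?_⟩
      simp
    · rw [finrank_top]
      simp only [finrank_fin_fun]
      omega
  | @step m K S Ah Ch ah ch hs hAh hleC hCh hch ih =>
    intro k e J hJ hk he hP hF
    obtain ⟨J0, J1, hp, h0, h1⟩ := exists_sorted J hJ
    have hF' := Fail.perm hL hK0 hg (Sys.step hs hAh hleC hCh hch) he hP hp hJ hF
    rcases J0 with _ | ⟨Y, J0⟩
    · simp only [List.map_nil, List.nil_append] at hF'
      exact not_fail_of_PCB hs he (by rwa [show m + k + 1 = m + 1 + k by omega]) h1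
        (hF'.mono (le_adj _ _))
    · obtain ⟨hYS, hYa⟩ := h0 Y List.mem_cons_self
      obtain ⟨Ah', hle, hAh'⟩ := hs.reduce hAh hYS (x := e + 1) le_rfl hYa
      obtain ⟨_, hF2⟩ := lemmaD hL hK0 hg hs hCh (hle.trans hleC) hAh' hch
        (fun X hX => (h0 X hX).1) h1 he (by rwa [show m + k + 1 = m + 1 + k by omega]) hF'
      refine ih (k := k + 1) (e := e + 1) ?_ (by omega) (by push_cast; omega)
        (by rwa [show m + (k + 1) = m + 1 + k by omega]) hF2
      intro X hX
      rcases List.mem_cons.1 hX with rfl | hX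
      · exact hAh'
      · exact (h0 X hX).1

theorem pc_keep_cut {K0 : Subfield L} {m : ℕ} {K : Subfield L}
    {S : Set (Submodule L (Fin d → L) × ℤ)} (hs : Sys K0 m K S)
    (hPm : ∀ ⦃A B : Submodule L (Fin d → L)⦄ ⦃a b : ℤ⦄, (A, a) ∈ S → (B, b) ∈ S →
      min a b ≤ pr A B)
    {C C' : Submodule L (Fin d → L)} {f : ℤ} {c : Fin d → L} (hC : (C', f) ∈ S) (hle' : C' ≤ C)
    (hc : IsGen K C c) {A B : Submodule L (Fin d → L)} {a b : ℤ} (hA : (A, a) ∈ S) (hB : (B, b + 1) ∈ S)
    (hbf : b + 1 ≤ f) : min a b ≤ pr A (B ⊓ cp c) := by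
  have h1 := hPm hA hB
  have h2 := pr_cut_ge A B c
  by_contra hcon
  push Not at hcon
  have h3 : a < b + 1 := by
    by_contra h
    rw [min_eq_right (by omega)] at h1
    rw [min_eq_right (by omega)] at hcon
    omega
  rw [min_eq_left (by omega)] at h1 hcon
  have hmem := mem_of_pr_cut_lt (show pr A (B ⊓ cp c) < pr A B by omega)
  have hle := hc.le_of_mem ((hs.rat hA).sup (hs.rat hB).perp) hmem
  have h4 := pr_le_of_le_sup hle
  have h5 := hPm hC hB
  rw [min_eq_right (by omega)] at h5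
  have h6 := pr_mono hle' (le_refl B)
  omega

theorem pcb (hL : Cardinal.aleph0 < Cardinal.mk L) {K0 : Subfield L} (hK0 : Small K0) :
    ∀ n : ℕ, PCB d K0 n := by
  intro n
  induction n with
  | zero => intro m hm; omega
  | succ n ih =>
    intro m hm
    rcases Nat.lt_succ_iff_lt_or_eq.1 hm with hm' | rfl
    · exact ih m hm'
    intro K S hs A B a b hA hB
    cases hs with
    | base =>
      simp only [Set.mem_singleton_iff, Prod.mk.injEq] at hA hB
      obtain ⟨rfl, rfl⟩ := hA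
      obtain ⟨rfl, rfl⟩ := hB
      rw [pr_top, min_self]
    | @step m K S C' C f c hs hC hle' hCr hc =>
      have hPm := ih m (by omega) K S hs
      have hA' := of_mem_stepSet hA
      have hB' := of_mem_stepSet hB
      clear hA hB
      rcases hA' with ⟨hA, haf⟩ | ⟨A, hA, haf, rfl⟩ <;>
        rcases hB' with ⟨hB, hbf⟩ | ⟨B, hB, hbf, rfl⟩
      · exact hPm hA hB
      · exact pc_keep_cut hs hPm hC hle' hc hA hB hbf
      · rw [min_comm, pr_comm]
        exact pc_keep_cut hs hPm hC hle' hc hB hA haf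
      · set e := min (a + 1) (b + 1) with he
        have hea : e ≤ a + 1 := min_le_left _ _
        have heb : e ≤ b + 1 := min_le_right _ _
        have hlow : ∃ Y, (Y, e) ∈ S := by
          rcases min_choice (a + 1) (b + 1) with h | h
          · exact ⟨A, by rw [he, h]; exact hA⟩
          · exact ⟨B, by rw [he, h]; exact hB⟩
        obtain ⟨Y, hY⟩ := hlow
        obtain ⟨A1, hA1, hA1S⟩ := hs.reduce hA hY (x := e) le_rfl hea
        obtain ⟨B1, hB1, hB1S⟩ := hs.reduce hB hY (x := e) le_rfl heb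
        obtain ⟨C1, hC1, hC1S⟩ := hs.reduce hC hY (x := e) le_rfl (by omega)
        have h1 : pr (A1 ⊓ cp c) (B1 ⊓ cp c) ≤ pr (A ⊓ cp c) (B ⊓ cp c) :=
          pr_mono (inf_le_inf_right _ hA1) (inf_le_inf_right _ hB1)
        refine le_trans ?_ h1
        have hab : min a b = e - 1 := by
          rw [he, min_add_add_right]; ring
        rw [hab]
        by_contra hcon
        push Not at hcon
        have hg : 1 ≤ e - 1 := by
          have := pr_nonneg (A1 ⊓ cp c) (B1 ⊓ cp c)
          omega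
        obtain ⟨_, hF⟩ := lemmaD (g := e - 1) (k := 0) (J0 := [A1, B1]) (J1 := [])
          (e := e - 1) hL hK0 hg hs hCr (hC1.trans hle')
          (by simpa using hC1S) hc
          (by
            intro X hX
            simp only [List.mem_cons, List.not_mem_nil, or_false] at hX
            rcases hX with rfl | rfl
            · simpa using hA1S
            · simpa using hB1S)
          (by simp) (by simp) (by simpa using ih)
          ⟨A1 ⊓ cp c, B1 ⊓ cp c, by simp, hcon⟩
        refine not_fail hL hK0 hg hs (k := 1) (e := e) ?_ le_rfl (by simp) (by simpa using ih) hF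
        intro X hX
        simp only [List.mem_cons, List.not_mem_nil, or_false] at hX
        rcases hX with rfl | rfl | rfl
        · exact hC1S
        · exact hA1S
        · exact hB1S

/-- The pairing-rank inequality. -/
theorem pc (hL : Cardinal.aleph0 < Cardinal.mk L) {K0 : Subfield L} (hK0 : Small K0)
    {m : ℕ} {K : Subfield L} {S : Set (Submodule L (Fin d → L) × ℤ)} (h : Sys K0 m K S)
    {A B : Submodule L (Fin d → L)} {a b : ℤ} (hA : (A, a) ∈ S) (hB : (B, b) ∈ S) :
    min a b ≤ pr A B :=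
  pcb hL hK0 (m + 1) m (Nat.lt_succ_self m) K S h hA hB

end Pool.Agent.Lib.MP_a2d8aa_co.Rk
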