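import Mathlib

/-!
Definitions for sequential orthogonal representations (MP_a2d8aa_co).
Proof: /team-store/MP_a2d8aa_rk_proof.md

`L` is a field, `Fin d → L` carries the dot product.
-/

open Matrix Module

namespace Pool.Agent.Lib.MP_a2d8aa_co.Rk

variable {L : Type*} [Field L] {d : ℕ}

/-- Orthogonal complement for the dot product. -/
def perp (A : Submodule L (Fin d → L)) : Submodule L (Fin d → L) where
  carrier := {x | ∀ a ∈ A, a ⬝ᵥ x = 0}
  add_mem' := by
    intro x y hx hy a ha
    rw [dotProduct_add, hx a ha, hy a ha, add_zero]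
  zero_mem' := by
    intro a _
    exact dotProduct_zero a
  smul_mem' := by
    intro r x hx a ha
    rw [dotProduct_smul, hx a ha, smul_zero]

theorem mem_perp {A : Submodule L (Fin d → L)} {x : Fin d → L} :
    x ∈ perp A ↔ ∀ a ∈ A, a ⬝ᵥ x = 0 := Iff.rfl

/-- The hyperplane of vectors orthogonal to `c` (everything if `c = 0`). -/
def cp (c : Fin d → L) : Submodule L (Fin d → L) where
  carrier := {x | c ⬝ᵥ x = 0}
  add_mem' := by
    intro x y hx hy
    change c ⬝ᵥ (x + y) = 0
    rw [dotProduct_add, hx, hy, add_zero]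
  zero_mem' := dotProduct_zero c
  smul_mem' := by
    intro r x hx
    change c ⬝ᵥ (r • x) = 0
    rw [dotProduct_smul, hx, smul_zero]

theorem mem_cp {c x : Fin d → L} : x ∈ cp c ↔ c ⬝ᵥ x = 0 := Iff.rfl

/-- Pairing rank: the rank of the dot product on `A × B`. -/
noncomputable def pr (A B : Submodule L (Fin d → L)) : ℤ :=
  (finrank L (A ⊔ perp B : Submodule L (Fin d → L)) : ℤ) - finrank L (perp B)

/-- The double drop condition. -/
def D2 (A B : Submodule L (Fin d → L)) (c : Fin d → L) : Prop :=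
  c ∈ B ⊔ perp A ∧ c ∈ (A ⊓ cp c) ⊔ perp B

/-- `A` is `K`-rational: spanned by vectors with coordinates in `K`. -/
def Rat (K : Subfield L) (A : Submodule L (Fin d → L)) : Prop :=
  ∃ S : Set (Fin d → L), (∀ s ∈ S, ∀ i, s i ∈ K) ∧ Submodule.span L S = A

/-- `c` is `K`-generic in `A`. -/
def IsGen (K : Subfield L) (A : Submodule L (Fin d → L)) (c : Fin d → L) : Prop :=
  c ∈ A ∧ ∀ φ : MvPolynomial (Fin d) K, MvPolynomial.aeval c φ = 0 →
    ∀ w ∈ A, MvPolynomial.aeval w φ = 0

/-- The field `K(c)`. -/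
def adj (K : Subfield L) (c : Fin d → L) : Subfield L :=
  K ⊔ Subfield.closure (Set.range c)

/-- `K` is small in `L`. -/
def Small (K : Subfield L) : Prop := Cardinal.mk K < Cardinal.mk L

end Pool.Agent.Lib.MP_a2d8aa_co.Rk
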