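import Pool.Agent.Lib.MP_a2d8aa_co.Rk.Graph

/-! Faithful orthogonal representations for complements of degenerate graphs:
dimension `2 D + 1`. -/

open Matrix Module

namespace Pool.Agent.Lib.MP_a2d8aa_co.Rk

section degen

variable {V : Type*} (G : SimpleGraph V)
variable {L : Type*} [Field L] {d : ℕ}

open Classical in
/-- number of earlier non-neighbours -/
noncomputable def ncnt (S : Set V) (l : List V) : ℕ := l.countP (fun v => decide (v ∉ S))

/-- every vertex has at most `D` earlier non-neighbours (newest vertex first) -/
def Degen (D : ℕ) : List V → Prop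
  | [] => True
  | x :: l => Degen D l ∧ x ∉ l ∧ ncnt (G.neighborSet x) l ≤ D

open Classical in
/-- the non-members of `S` in the prefix -/
noncomputable def nset (S : Set V) (l : List V) : Finset V :=
  (l.filter (fun v => decide (v ∉ S))).toFinset

theorem mem_nset {S : Set V} {l : List V} {v : V} : v ∈ nset S l ↔ v ∈ l ∧ v ∉ S := by
  classical
  simp [nset]

theorem card_nset_le (S : Set V) (l : List V) : (nset S l).card ≤ ncnt S l := by
  classical
  unfold nset ncnt
  rw [List.countP_eq_length_filter]
  exact List.toFinset_card_le _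

theorem perp_sp_le (c : V → Fin d → L) (l : List V) (S : Set V) :
    perp (sp c l S) ≤ Submodule.span L (c '' (nset S l : Set V)) := by
  classical
  have h : perp (Submodule.span L (c '' (nset S l : Set V))) ≤ sp c l S := by
    intro w hw
    rw [mem_sp_iff]
    intro v hv hvS
    exact hw (c v) (Submodule.subset_span ⟨v, by
      rw [Finset.mem_coe, mem_nset]; exact ⟨hv, hvS⟩, rfl⟩)
  have h2 := perp_anti h
  rwa [perp_perp] at h2

theorem finrank_span_image_le (c : V → Fin d → L) (Y : Finset V) :
    finrank L (Submodule.span L (c '' (Y : Set V))) ≤ Y.card := by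
  classical
  have h := finrank_span_finset_le_card (R := L) (Y.image c)
  rw [Finset.coe_image] at h
  exact h.trans Finset.card_image_le

theorem finrank_sp_ge (c : V → Fin d → L) (l : List V) (S : Set V) :
    d ≤ finrank L (sp c l S) + ncnt S l := by
  have h1 := finrank_perp (sp c l S)
  have h2 := Submodule.finrank_mono (perp_sp_le c l S)
  have h3 := finrank_span_image_le c (nset S l)
  have h4 := card_nset_le S l
  omega

theorem rat_span_image {K0 : Subfield L} {c : V → Fin d → L} {l : List V} (Y : Finset V)
    (hY : ∀ y ∈ Y, y ∈ l) : Rat (fld K0 c l) (Submodule.span L (c '' (Y : Set V))) := by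
  refine ⟨c '' (Y : Set V), ?_, rfl⟩
  rintro s ⟨y, hy, rfl⟩ i
  exact coord_mem_fld (hY y hy) i

/-- no vector lies in the span of at most `D` earlier ones -/
theorem not_mem_span_earlier {K0 : Subfield L} {c : V → Fin d → L} {D : ℕ} (hd : 2 * D + 1 ≤ d)
    {x : V} {l : List V} (hr : Rep G K0 c (x :: l)) (hx : ncnt (G.neighborSet x) l ≤ D)
    (Y : Finset V) (hY : ∀ y ∈ Y, y ∈ l) (hcard : Y.card ≤ D) :
    c x ∉ Submodule.span L (c '' (Y : Set V)) := by
  intro hmem
  have h1 := hr.2.le_of_mem (rat_span_image Y hY) hmem
  have h2 := Submodule.finrank_mono h1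
  have h3 := finrank_sp_ge c l (G.neighborSet x)
  have h4 := finrank_span_image_le c Y
  omega

/-- no vector lies in the span of at most `D` other ones -/
theorem not_mem_span {K0 : Subfield L} {c : V → Fin d → L} {D : ℕ} (hd : 2 * D + 1 ≤ d) :
    ∀ {l : List V}, Rep G K0 c l → Degen G D l → ∀ {u : V}, u ∈ l →
    ∀ Y : Finset V, (∀ y ∈ Y, y ∈ l) → u ∉ Y → Y.card ≤ D →
      c u ∉ Submodule.span L (c '' (Y : Set V)) := by
  classical
  intro l
  induction l with
  | nil => intro _ _ u hu; simp at hu
  | cons x l ih =>
    intro hr hdg u hu Y hY huY hcard hmem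
    by_cases hxY : x ∈ Y
    · have hux : u ≠ x := fun h => huY (h ▸ hxY)
      have hul : u ∈ l := by
        rcases List.mem_cons.1 hu with h | h
        · exact absurd h hux
        · exact h
      set Y' := Y.erase x with hY'
      have hYeq : (Y : Set V) = insert x (Y' : Set V) := by
        rw [← Finset.coe_insert, hY', Finset.insert_erase hxY]
      have hY'l : ∀ y ∈ Y', y ∈ l := by
        intro y hy
        rw [hY', Finset.mem_erase] at hy
        rcases List.mem_cons.1 (hY y hy.2) with h | h
        · exact absurd h hy.1
        · exact h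
      have hcard' : Y'.card + 1 = Y.card := Finset.card_erase_add_one hxY
      rw [hYeq, Set.image_insert_eq, Submodule.mem_span_insert] at hmem
      obtain ⟨a, z, hz, hcu⟩ := hmem
      by_cases ha : a = 0
      · rw [ha, zero_smul, zero_add] at hcu
        refine ih hr.1 hdg.1 hul Y' hY'l ?_ (by omega) (hcu ▸ hz)
        intro h
        exact huY (Finset.mem_of_mem_erase h)
      · have hx : c x ∈ Submodule.span L (c '' ((insert u Y' : Finset V) : Set V)) := by
          rw [Finset.coe_insert, Set.image_insert_eq, Submodule.mem_span_insert]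
          refine ⟨a⁻¹, -(a⁻¹ • z), Submodule.neg_mem _ (Submodule.smul_mem _ _ hz), ?_⟩
          rw [hcu, smul_add, smul_smul, inv_mul_cancel₀ ha, one_smul]
          abel
        refine not_mem_span_earlier G hd hr hdg.2.2 (insert u Y') ?_ ?_ hx
        · intro y hy
          rcases Finset.mem_insert.1 hy with rfl | hy
          · exact hul
          · exact hY'l y hy
        · refine (Finset.card_insert_le _ _).trans ?_
          omega
    · have hYl : ∀ y ∈ Y, y ∈ l := by
        intro y hy
        rcases List.mem_cons.1 (hY y hy) with h | h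
        · exact absurd (h ▸ hy) hxY
        · exact h
      rcases List.mem_cons.1 hu with rfl | hul
      · exact not_mem_span_earlier G hd hr hdg.2.2 Y hYl hcard hmem
      · exact ih hr.1 hdg.1 hul Y hYl huY hcard hmem

theorem nodup_of_degen {D : ℕ} {l : List V} (h : Degen G D l) : l.Nodup := by
  induction l with
  | nil => exact List.nodup_nil
  | cons x l ih => exact List.nodup_cons.2 ⟨h.2.1, ih h.1⟩

/-- the faithful representation in dimension `2 D + 1` -/
theorem exists_faithful_of_degen (hL : Cardinal.aleph0 < Cardinal.mk L) {D : ℕ}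
    (hd : 2 * D + 1 ≤ d) (l : List V) (hl : Degen G D l) :
    ∃ c : V → Fin d → L, ∀ u ∈ l, ∀ v ∈ l, u ≠ v →
      (c u ⬝ᵥ c v ≠ 0 ↔ G.Adj u v) := by
  classical
  have hK0 : Small (⊥ : Subfield L) := small_bot hL
  obtain ⟨c, hc⟩ := exists_rep (d := d) G hL hK0 l (nodup_of_degen G hl)
  refine ⟨c, ?_⟩
  induction l with
  | nil => intro u hu; simp at hu
  | cons x l ih =>
    have ih' := ih hl.1 hc.1
    have key : ∀ v ∈ l, (c x ⬝ᵥ c v ≠ 0 ↔ G.Adj x v) := by
      intro v hv
      constructor
      · intro h1
        by_contra h2
        have h3 := (mem_sp_iff c).1 hc.2.1 v hv h2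
        rw [dotProduct_comm] at h3
        exact h1 h3
      · intro h1 h2
        have h4 : c x ∈ cp (c v) := by
          rw [mem_cp, dotProduct_comm]; exact h2
        have h5 := hc.2.le_of_mem (Rat.cp (fun i => coord_mem_fld hv i)) h4
        have h6 : c v ∈ perp (sp c l (G.neighborSet x)) := by
          intro a ha
          have h7 := h5 ha
          rw [mem_cp, dotProduct_comm] at h7
          exact h7
        refine not_mem_span G hd hc.1 hl.1 hv (nset (G.neighborSet x) l) ?_ ?_ ?_
          (perp_sp_le c l _ h6)
        · intro y hy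
          exact (mem_nset.1 hy).1
        · intro hv'
          exact (mem_nset.1 hv').2 h1
        · exact (card_nset_le _ _).trans hl.2.2
    intro u hu v hv huv
    rcases List.mem_cons.1 hu with rfl | hu <;> rcases List.mem_cons.1 hv with rfl | hv
    · exact absurd rfl huv
    · exact key v hv
    · rw [dotProduct_comm, G.adj_comm]
      exact key u ‹_›
    · exact ih' u hu v hv huv

end degen

end Pool.Agent.Lib.MP_a2d8aa_co.Rk
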