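import Pool.Agent.Lib.MP_a2d8aa_co.Rk.Core

/-! Faithful orthogonal representations over fields of uncountable cardinality:
the order criterion, and the bound by the minimum degree. -/

open Matrix Module

namespace Pool.Agent.Lib.MP_a2d8aa_co.Rk

theorem small_bot {L : Type*} [Field L] (hL : Cardinal.aleph0 < Cardinal.mk L) :
    Small (⊥ : Subfield L) := by
  have h : (⊥ : Subfield L) = Subfield.closure (∅ : Set L) := Subfield.closure_empty.symm
  unfold Small
  rw [h]
  refine (Subfield.cardinalMk_closure_le_max _).trans_lt ?_
  simpa using hL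

section order

variable {V : Type*} (G : SimpleGraph V)

open Classical in
/-- The level of a vertex set `S` over the prefix `l` (newest vertex first). -/
noncomputable def lev (d : ℤ) : List V → Set V → ℤ
  | [], _ => d
  | x :: l, S => min (lev d l S) (lev d l (G.neighborSet x)) - (if x ∈ S then 0 else 1)

theorem lev_cons_mem {d : ℤ} {x : V} {l : List V} {S : Set V} (h : x ∈ S) :
    lev G d (x :: l) S = min (lev G d l S) (lev G d l (G.neighborSet x)) := by simp [lev, h]

theorem lev_cons_not_mem {d : ℤ} {x : V} {l : List V} {S : Set V} (h : x ∉ S) :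
    lev G d (x :: l) S = min (lev G d l S) (lev G d l (G.neighborSet x)) - 1 := by simp [lev, h]

/-- The order criterion. -/
def Good (d : ℤ) : List V → Prop
  | [] => True
  | x :: l => Good d l ∧ x ∉ l ∧ 1 ≤ lev G d l (G.neighborSet x)

variable {L : Type*} [Field L] {d : ℕ}

open Classical in
/-- The space `A_S` over the prefix `l`. -/
noncomputable def sp (c : V → Fin d → L) : List V → Set V → Submodule L (Fin d → L)
  | [], _ => ⊤
  | x :: l, S => if x ∈ S then sp c l S else sp c l S ⊓ cp (c x)

theorem sp_cons_mem (c : V → Fin d → L) {x : V} {l : List V} {S : Set V} (h : x ∈ S) :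
    sp c (x :: l) S = sp c l S := by simp [sp, h]

theorem sp_cons_not_mem (c : V → Fin d → L) {x : V} {l : List V} {S : Set V} (h : x ∉ S) :
    sp c (x :: l) S = sp c l S ⊓ cp (c x) := by simp [sp, h]

theorem mem_sp_iff (c : V → Fin d → L) {l : List V} {S : Set V} {w : Fin d → L} :
    w ∈ sp c l S ↔ ∀ v ∈ l, v ∉ S → c v ⬝ᵥ w = 0 := by
  induction l with
  | nil => simp [sp]
  | cons x l ih =>
    by_cases h : x ∈ S
    · rw [sp_cons_mem c h, ih]
      constructor
      · intro h1 v hv hvS
        rcases List.mem_cons.1 hv with rfl | hv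
        · exact absurd h hvS
        · exact h1 v hv hvS
      · intro h1 v hv hvS
        exact h1 v (List.mem_cons_of_mem _ hv) hvS
    · rw [sp_cons_not_mem c h, Submodule.mem_inf, ih, mem_cp]
      constructor
      · rintro ⟨h1, h2⟩ v hv hvS
        rcases List.mem_cons.1 hv with rfl | hv
        · exact h2
        · exact h1 v hv hvS
      · intro h1
        exact ⟨fun v hv hvS => h1 v (List.mem_cons_of_mem _ hv) hvS, h1 x List.mem_cons_self h⟩

/-- The field generated by the vectors of the prefix. -/
noncomputable def fld (K0 : Subfield L) (c : V → Fin d → L) : List V → Subfield L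
  | [] => K0
  | x :: l => adj (fld K0 c l) (c x)

/-- `c` is a sequentially generic representation of the prefix `l`. -/
def Rep (K0 : Subfield L) (c : V → Fin d → L) : List V → Prop
  | [] => True
  | x :: l => Rep K0 c l ∧ IsGen (fld K0 c l) (sp c l (G.neighborSet x)) (c x)

/-- The system of the prefix. -/
noncomputable def sysSet (c : V → Fin d → L) : List V → Set (Submodule L (Fin d → L) × ℤ)
  | [] => {((⊤ : Submodule L (Fin d → L)), (d : ℤ))}
  | x :: l => stepSet (sysSet c l) (lev G d l (G.neighborSet x)) (c x)

theorem fld_congr {K0 : Subfield L} {c c' : V → Fin d → L} {l : List V}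
    (h : ∀ v ∈ l, c v = c' v) : fld K0 c l = fld K0 c' l := by
  induction l with
  | nil => rfl
  | cons x l ih =>
    simp only [fld]
    rw [ih (fun v hv => h v (List.mem_cons_of_mem _ hv)), h x List.mem_cons_self]

theorem sp_congr {c c' : V → Fin d → L} {l : List V} {S : Set V}
    (h : ∀ v ∈ l, c v = c' v) : sp c l S = sp c' l S := by
  ext w
  rw [mem_sp_iff, mem_sp_iff]
  constructor
  · intro h1 v hv hvS
    rw [← h v hv]; exact h1 v hv hvS
  · intro h1 v hv hvS
    rw [h v hv]; exact h1 v hv hvS

theorem rep_congr {K0 : Subfield L} {c c' : V → Fin d → L} {l : List V}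
    (h : ∀ v ∈ l, c v = c' v) (hr : Rep G K0 c l) : Rep G K0 c' l := by
  induction l with
  | nil => trivial
  | cons x l ih =>
    have h' : ∀ v ∈ l, c v = c' v := fun v hv => h v (List.mem_cons_of_mem _ hv)
    refine ⟨ih h' hr.1, ?_⟩
    rw [← fld_congr h', ← sp_congr h', ← h x List.mem_cons_self]
    exact hr.2

theorem coord_mem_fld {K0 : Subfield L} {c : V → Fin d → L} {l : List V} {v : V} (hv : v ∈ l)
    (i : Fin d) : c v i ∈ fld K0 c l := by
  induction l with
  | nil => simp at hv
  | cons x l ih =>
    rcases List.mem_cons.1 hv with rfl | hv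
    · exact coord_mem_adj _ _ i
    · exact le_adj _ _ (ih hv)

theorem rat_sp {K0 : Subfield L} {c : V → Fin d → L} {l : List V} (S : Set V) :
    Rat (fld K0 c l) (sp c l S) := by
  induction l with
  | nil => exact Rat.top _
  | cons x l ih =>
    by_cases h : x ∈ S
    · rw [sp_cons_mem c h]; exact ih.mono (le_adj _ _)
    · rw [sp_cons_not_mem c h]; exact ih.cut _

theorem sys_of_rep {K0 : Subfield L} {c : V → Fin d → L} {l : List V} (hr : Rep G K0 c l) :
    Sys K0 l.length (fld K0 c l) (sysSet G c l) ∧
      ∀ S : Set V, ∃ A' ≤ sp c l S, (A', lev G d l S) ∈ sysSet G c l := by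
  induction l with
  | nil => exact ⟨Sys.base, fun S => ⟨⊤, le_rfl, rfl⟩⟩
  | cons x l ih =>
    obtain ⟨hs, hS⟩ := ih hr.1
    obtain ⟨Ax, hAx, hAxS⟩ := hS (G.neighborSet x)
    refine ⟨Sys.step hs hAxS hAx (rat_sp _) hr.2, fun S => ?_⟩
    obtain ⟨A, hA, hAS⟩ := hS S
    have h1 : ∃ A'' ≤ A, (A'', min (lev G d l S) (lev G d l (G.neighborSet x))) ∈
        sysSet G c l := by
      rcases le_total (lev G d l S) (lev G d l (G.neighborSet x)) with h | h
      · rw [min_eq_left h]; exact ⟨A, le_rfl, hAS⟩
      · rw [min_eq_right h]
        exact hs.reduce hAS hAxS le_rfl h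
    obtain ⟨A'', hA'', hA''S⟩ := h1
    by_cases h : x ∈ S
    · refine ⟨A'', ?_, ?_⟩
      · rw [sp_cons_mem c h]; exact hA''.trans hA
      · simp only [lev, h, if_true, sub_zero, sysSet]
        exact mem_stepSet_keep hA''S (min_le_right _ _)
    · refine ⟨A'' ⊓ cp (c x), ?_, ?_⟩
      · rw [sp_cons_not_mem c h]; exact inf_le_inf_right _ (hA''.trans hA)
      · simp only [lev, h, if_false, sysSet]
        exact mem_stepSet_cut (by simpa using hA''S)
          (by simp)

/-- the pairing-rank inequality for vertex sets -/
theorem pr_sp_ge (hL : Cardinal.aleph0 < Cardinal.mk L) {K0 : Subfield L} (hK0 : Small K0)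
    {c : V → Fin d → L} {l : List V} (hr : Rep G K0 c l) (S T : Set V) :
    min (lev G d l S) (lev G d l T) ≤ pr (sp c l S) (sp c l T) := by
  obtain ⟨hs, hS⟩ := sys_of_rep G hr
  obtain ⟨A, hA, hAS⟩ := hS S
  obtain ⟨B, hB, hBS⟩ := hS T
  exact (pc hL hK0 hs hAS hBS).trans (pr_mono hA hB)

theorem faithful_aux (hL : Cardinal.aleph0 < Cardinal.mk L) {K0 : Subfield L} (hK0 : Small K0)
    {c : V → Fin d → L} {l : List V} (hr : Rep G K0 c l) :
    ∀ {S : Set V} {y : V}, y ∈ l → y ∈ S → 1 ≤ lev G d l S → c y ∉ perp (sp c l S) := by
  induction l with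
  | nil => intro S y hy; simp at hy
  | cons m l ih =>
    intro S y hy hyS hlev
    have hpr := pr_sp_ge G hL hK0 hr.1 (G.neighborSet m) S
    rw [min_comm] at hpr
    by_cases hm : m ∈ S
    · rw [sp_cons_mem c hm]
      rw [lev_cons_mem G hm] at hlev
      rcases List.mem_cons.1 hy with rfl | hy
      · intro hcon
        have := pr_le_zero_of_le (hr.2.le_of_mem (rat_sp S).perp hcon)
        omega
      · exact ih hr.1 hy hyS (by omega)
    · rw [sp_cons_not_mem c hm, perp_inf_cp]
      rw [lev_cons_not_mem G hm] at hlev
      rcases List.mem_cons.1 hy with rfl | hy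
      · exact absurd hyS hm
      · have h1 := ih hr.1 hy hyS (by omega)
        intro hcon
        have h2 : c m ∈ perp (sp c l S) ⊔ Submodule.span L {c y} := by
          rw [Submodule.mem_sup] at hcon ⊢
          obtain ⟨z, hz, w, hw, hzw⟩ := hcon
          obtain ⟨r, rfl⟩ := Submodule.mem_span_singleton.1 hw
          have hr0 : r ≠ 0 := by
            rintro rfl
            rw [zero_smul, add_zero] at hzw
            exact h1 (hzw ▸ hz)
          refine ⟨-(r⁻¹ • z), Submodule.neg_mem _ (Submodule.smul_mem _ _ hz), r⁻¹ • c y,
            Submodule.smul_mem _ _ (Submodule.mem_span_singleton_self _), ?_⟩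
          rw [← hzw, smul_add, smul_smul, inv_mul_cancel₀ hr0, one_smul]
          abel
        have h3 := hr.2.le_of_mem ((rat_sp S).perp.sup
          (Rat.span_singleton (fun i => coord_mem_fld hy i))) h2
        have h4 : pr (sp c l (G.neighborSet m)) (sp c l S) ≤ 1 := by
          unfold pr
          have h5 : sp c l (G.neighborSet m) ⊔ perp (sp c l S) ≤
              perp (sp c l S) ⊔ Submodule.span L {c y} := sup_le h3 le_sup_left
          have h6 := Submodule.finrank_mono h5
          have h7 := Submodule.finrank_add_le_finrank_add_finrank (perp (sp c l S))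
            (Submodule.span L {c y})
          have h8 : finrank L (Submodule.span L {c y}) ≤ 1 := by
            have := finrank_span_le_card (R := L) ({c y} : Set (Fin d → L))
            simpa using this
          omega
        omega

/-- Existence of sequentially generic representations. -/
theorem exists_rep (hL : Cardinal.aleph0 < Cardinal.mk L) {K0 : Subfield L} (hK0 : Small K0)
    (l : List V) (hl : l.Nodup) : ∃ c : V → Fin d → L, Rep G K0 c l := by
  classical
  induction l with
  | nil => exact ⟨fun _ => 0, trivial⟩
  | cons x l ih =>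
    rw [List.nodup_cons] at hl
    obtain ⟨c, hc⟩ := ih hl.2
    have hsmall : Small (fld K0 c l) := by
      clear ih hc hl
      induction l with
      | nil => exact hK0
      | cons y l ih => exact Small.adj hL ih _
    obtain ⟨z, hz⟩ := exists_gen hL hsmall (rat_sp (K0 := K0) (c := c) (l := l)
      (G.neighborSet x))
    have hagree : ∀ v ∈ l, c v = Function.update c x z v := by
      intro v hv
      rw [Function.update_of_ne]
      rintro rfl
      exact hl.1 hv
    refine ⟨Function.update c x z, rep_congr G hagree hc, ?_⟩
    rw [← fld_congr hagree, ← sp_congr hagree, Function.update_self]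
    exact hz

theorem nodup_of_good {e : ℤ} {l : List V} (h : Good G e l) : l.Nodup := by
  induction l with
  | nil => exact List.nodup_nil
  | cons x l ih => exact List.nodup_cons.2 ⟨h.2.1, ih h.1⟩

/-- The order criterion: if all levels are at least `1`, there is a faithful orthogonal
representation in dimension `d`. -/
theorem exists_faithful_of_good (hL : Cardinal.aleph0 < Cardinal.mk L) (l : List V)
    (hl : Good G (d : ℤ) l) :
    ∃ c : V → Fin d → L, ∀ u ∈ l, ∀ v ∈ l, u ≠ v →
      (c u ⬝ᵥ c v ≠ 0 ↔ G.Adj u v) := by
  have hK0 : Small (⊥ : Subfield L) := small_bot hL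
  obtain ⟨c, hc⟩ := exists_rep (d := d) G hL hK0 l (nodup_of_good G hl)
  refine ⟨c, ?_⟩
  induction l with
  | nil => intro u hu; simp at hu
  | cons x l ih =>
    have ih' := ih hl.1 hc.1
    have key : ∀ v ∈ l, (c x ⬝ᵥ c v ≠ 0 ↔ G.Adj x v) := by
      intro v hv
      constructor
      · intro h1
        by_contra h2
        have h3 := (mem_sp_iff c).1 hc.2.1 v hv h2
        rw [dotProduct_comm] at h3
        exact h1 h3
      · intro h1 h2
        have h3 := faithful_aux G hL hK0 hc.1 hv
          (show v ∈ G.neighborSet x from h1) hl.2.2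
        apply h3
        intro a ha
        have h4 : c x ∈ cp (c v) := by
          rw [mem_cp, dotProduct_comm]; exact h2
        have h5 := hc.2.le_of_mem (Rat.cp (fun i => coord_mem_fld hv i)) h4
        have h6 := h5 ha
        rw [mem_cp, dotProduct_comm] at h6
        exact h6
    intro u hu v hv huv
    rcases List.mem_cons.1 hu with rfl | hu <;> rcases List.mem_cons.1 hv with rfl | hv
    · exact absurd rfl huv
    · exact key v hv
    · rename_i hu'
      rw [dotProduct_comm, G.adj_comm]
      exact key u ‹_›
    · exact ih' u hu v hv huv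

end order

section degree

variable {V : Type*} (G : SimpleGraph V)

open Classical in
/-- number of elements of `l` in `S` -/
noncomputable def cnt (S : Set V) (l : List V) : ℕ := l.countP (fun v => decide (v ∈ S))

theorem cnt_cons_mem {S : Set V} {x : V} {l : List V} (h : x ∈ S) :
    cnt S (x :: l) = cnt S l + 1 := by
  unfold cnt; rw [List.countP_cons]; simp [h]

theorem cnt_cons_not_mem {S : Set V} {x : V} {l : List V} (h : x ∉ S) :
    cnt S (x :: l) = cnt S l := by
  unfold cnt; rw [List.countP_cons]; simp [h]

/-- maximum adjacency orders -/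
def MA : List V → Prop
  | [] => True
  | x :: l => MA l ∧ x ∉ l ∧ ∀ y, y ∉ l → cnt (G.neighborSet y) l ≤ cnt (G.neighborSet x) l

/-- dominated sets -/
def Dom (S : Set V) : List V → Prop
  | [] => True
  | x :: l => Dom S l ∧ cnt S l ≤ cnt (G.neighborSet x) l

theorem dom_of_ma {l : List V} (h : MA G l) {y : V} (hy : y ∉ l) : Dom G (G.neighborSet y) l := by
  induction l with
  | nil => trivial
  | cons x l ih =>
    rw [List.mem_cons, not_or] at hy
    exact ⟨ih h.1 hy.2, h.2.2 y hy.2⟩

theorem lev_of_dom {l : List V} (h : MA G l) {S : Set V} (hS : Dom G S l) (d : ℤ) :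
    lev G d l S = cnt S l + d - l.length := by
  induction l generalizing S with
  | nil => simp [lev, cnt]
  | cons x l ih =>
    have h1 := ih h.1 hS.1
    have h2 := ih h.1 (dom_of_ma G h.1 h.2.1)
    have h3 := hS.2
    by_cases hx : x ∈ S
    · rw [lev_cons_mem G hx, h1, h2, cnt_cons_mem hx, List.length_cons]
      push_cast
      omega
    · rw [lev_cons_not_mem G hx, h1, h2, cnt_cons_not_mem hx, List.length_cons]
      push_cast
      omega

theorem exists_ma [Fintype V] (k : ℕ) (hk : k ≤ Fintype.card V) :
    ∃ l : List V, MA G l ∧ l.length = k ∧ l.Nodup := by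
  classical
  induction k with
  | zero => exact ⟨[], trivial, rfl, List.nodup_nil⟩
  | succ k ih =>
    obtain ⟨l, hl, hlen, hnd⟩ := ih (by omega)
    have hne : (Finset.univ \ l.toFinset : Finset V).Nonempty := by
      rw [← Finset.card_pos, Finset.card_univ_sdiff, List.toFinset_card_of_nodup hnd]
      omega
    obtain ⟨x, hx, hmax⟩ := Finset.exists_max_image _ (fun y => cnt (G.neighborSet y) l) hne
    simp only [Finset.mem_sdiff, Finset.mem_univ, List.mem_toFinset, true_and] at hx hmax
    exact ⟨x :: l, ⟨hl, hx, fun y hy => hmax y hy⟩, by simp [hlen], List.nodup_cons.2 ⟨hx, hnd⟩⟩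

theorem good_of_ma [Fintype V] [DecidableRel G.Adj] {d : ℕ}
    (hd : Fintype.card V ≤ d + G.minDegree) {l : List V} (h : MA G l) : Good G (d : ℤ) l := by
  classical
  induction l with
  | nil => trivial
  | cons x l ih =>
    refine ⟨ih h.1, h.2.1, ?_⟩
    rw [lev_of_dom G h.1 (dom_of_ma G h.1 h.2.1)]
    have hnd : l.Nodup := by
      have : ∀ l : List V, MA G l → l.Nodup := by
        intro l
        induction l with
        | nil => intro _; exact List.nodup_nil
        | cons y l ih => intro h; exact List.nodup_cons.2 ⟨h.2.1, ih h.1⟩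
      exact this l h.1
    have h1 : l.length ≤ cnt (G.neighborSet x) l + (Fintype.card V - 1 - G.degree x) := by
      have h2 : ∀ l : List V, l.length = cnt (G.neighborSet x) l +
          l.countP (fun v => !decide (v ∈ G.neighborSet x)) := by
        intro l
        induction l with
        | nil => simp [cnt]
        | cons y l ih =>
          by_cases hy : y ∈ G.neighborSet x
          · rw [cnt_cons_mem hy, List.length_cons, List.countP_cons, ih]
            simp only [hy, decide_true, Bool.not_true, Bool.false_eq_true, if_false]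
            omega
          · rw [cnt_cons_not_mem hy, List.length_cons, List.countP_cons, ih]
            simp only [hy, decide_false, Bool.not_false, if_true]
            omega
      have h2 := h2 l
      have h3 : l.countP (fun v => !decide (v ∈ G.neighborSet x)) ≤
          Fintype.card V - 1 - G.degree x := by
        rw [List.countP_eq_length_filter]
        have h4 : (l.filter (fun v => !decide (v ∈ G.neighborSet x))).Nodup := hnd.filter _
        rw [← List.toFinset_card_of_nodup h4]
        have h5 : (l.filter (fun v => !decide (v ∈ G.neighborSet x))).toFinset ⊆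
            Finset.univ \ (insert x (G.neighborFinset x)) := by
          intro v hv
          simp only [List.mem_toFinset, List.mem_filter, SimpleGraph.mem_neighborSet,
            Bool.not_eq_eq_eq_not, Bool.not_true, decide_eq_false_iff_not] at hv
          simp only [Finset.mem_sdiff, Finset.mem_univ, Finset.mem_insert,
            SimpleGraph.mem_neighborFinset, true_and, not_or]
          refine ⟨?_, hv.2⟩
          rintro rfl
          exact h.2.1 hv.1
        refine (Finset.card_le_card h5).trans ?_
        rw [Finset.card_univ_sdiff, Finset.card_insert_of_notMem (by simp),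
          SimpleGraph.card_neighborFinset_eq_degree]
        omega
      omega
    have h6 := G.minDegree_le_degree x
    have h7 := G.degree_lt_card_verts x
    omega

/-- Every graph `G` has a faithful orthogonal representation in `L ^ d` when
`d ≥ |V| - δ(G)` and `L` is uncountable. -/
theorem exists_faithful {L : Type*} [Field L] (hL : Cardinal.aleph0 < Cardinal.mk L)
    [Fintype V] [DecidableRel G.Adj] (d : ℕ) (hd : Fintype.card V ≤ d + G.minDegree) :
    ∃ c : V → Fin d → L, ∀ u v, u ≠ v → (c u ⬝ᵥ c v ≠ 0 ↔ G.Adj u v) := by
  classical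
  obtain ⟨l, hl, hlen, hnd⟩ := exists_ma G (Fintype.card V) le_rfl
  obtain ⟨c, hc⟩ := exists_faithful_of_good (d := d) G hL l (good_of_ma G hd hl)
  have hall : ∀ v, v ∈ l := by
    intro v
    have : l.toFinset = Finset.univ := by
      rw [← Finset.card_eq_iff_eq_univ, List.toFinset_card_of_nodup hnd, hlen]
    rw [← List.mem_toFinset, this]
    exact Finset.mem_univ v
  exact ⟨c, fun u v huv => hc u (hall u) v (hall v) huv⟩

end degree

end Pool.Agent.Lib.MP_a2d8aa_co.Rk
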