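import Pool.Agent.Lib.MP_a2d8aa_co.Rk.Defs

/-! Linear algebra of pairing ranks. -/

open Matrix Module

namespace Pool.Agent.Lib.MP_a2d8aa_co.Rk

variable {L : Type*} [Field L] {d : ℕ}

/-- The dot product as a bilinear form. -/
private def bf (L : Type*) [Field L] (d : ℕ) : LinearMap.BilinForm L (Fin d → L) :=
  LinearMap.mk₂ L (fun x y => x ⬝ᵥ y) (fun x y z => add_dotProduct x y z)
    (fun r x y => smul_dotProduct r x y) (fun x y z => dotProduct_add x y z)
    (fun r x y => dotProduct_smul r x y)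

private theorem bf_apply (x y : Fin d → L) : bf L d x y = x ⬝ᵥ y := rfl

private theorem bf_nondeg : (bf L d).Nondegenerate := by
  constructor
  · intro x hx
    funext i
    have := hx (Pi.single i 1)
    rw [bf_apply, dotProduct_single, mul_one] at this
    exact this
  · intro x hx
    funext i
    have := hx (Pi.single i 1)
    rw [bf_apply, single_dotProduct, one_mul] at this
    exact this

private theorem bf_refl : (bf L d).IsRefl := by
  intro x y h
  rw [bf_apply] at h ⊢
  rw [dotProduct_comm]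
  exact h

private theorem perp_eq (A : Submodule L (Fin d → L)) : perp A = (bf L d).orthogonal A := by
  ext x
  rw [LinearMap.BilinForm.mem_orthogonal_iff]
  rfl

theorem perp_anti {A B : Submodule L (Fin d → L)} (h : A ≤ B) : perp B ≤ perp A :=
  fun _ hx a ha => hx a (h ha)

theorem finrank_perp (A : Submodule L (Fin d → L)) :
    finrank L (perp A) + finrank L A = d := by
  rw [perp_eq, LinearMap.BilinForm.finrank_orthogonal bf_nondeg]
  have h1 := Submodule.finrank_le A
  rw [finrank_fin_fun] at h1 ⊢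
  omega

theorem perp_perp (A : Submodule L (Fin d → L)) : perp (perp A) = A := by
  rw [perp_eq, perp_eq]
  exact LinearMap.BilinForm.orthogonal_orthogonal bf_nondeg bf_refl A

theorem perp_top : perp (⊤ : Submodule L (Fin d → L)) = ⊥ := by
  rw [← Submodule.finrank_eq_zero (R := L)]
  have h := finrank_perp (⊤ : Submodule L (Fin d → L))
  rw [finrank_top, finrank_fin_fun] at h
  omega

theorem perp_span_singleton (c : Fin d → L) : perp (Submodule.span L {c}) = cp c := by
  ext x
  rw [mem_perp, mem_cp]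
  constructor
  · intro h
    exact h c (Submodule.mem_span_singleton_self c)
  · intro h a ha
    obtain ⟨r, rfl⟩ := Submodule.mem_span_singleton.1 ha
    rw [smul_dotProduct, h, smul_zero]

theorem perp_sup (A B : Submodule L (Fin d → L)) : perp (A ⊔ B) = perp A ⊓ perp B := by
  apply le_antisymm
  · exact le_inf (perp_anti le_sup_left) (perp_anti le_sup_right)
  · rintro x ⟨h1, h2⟩ a ha
    obtain ⟨y, hy, z, hz, rfl⟩ := Submodule.mem_sup.1 ha
    rw [add_dotProduct, h1 y hy, h2 z hz, add_zero]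

theorem perp_inf (A B : Submodule L (Fin d → L)) : perp (A ⊓ B) = perp A ⊔ perp B := by
  rw [← perp_perp (perp A ⊔ perp B), perp_sup, perp_perp, perp_perp]

theorem perp_inf_cp (A : Submodule L (Fin d → L)) (c : Fin d → L) :
    perp (A ⊓ cp c) = perp A ⊔ Submodule.span L {c} := by
  rw [← perp_span_singleton, perp_inf, perp_perp]

/-- dimension formula `dim (A ∩ B^⊥) = dim A - pr A B`. -/
theorem finrank_inf_perp (A B : Submodule L (Fin d → L)) :
    (finrank L (A ⊓ perp B : Submodule L (Fin d → L)) : ℤ) = finrank L A - pr A B := by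
  have h := Submodule.finrank_sup_add_finrank_inf_eq A (perp B)
  unfold pr
  omega

theorem pr_comm (A B : Submodule L (Fin d → L)) : pr A B = pr B A := by
  have h1 := finrank_inf_perp A B
  have h2 : A ⊓ perp B = perp (B ⊔ perp A) := by
    rw [perp_sup, perp_perp, inf_comm]
  have h3 := finrank_perp (B ⊔ perp A)
  have h4 := finrank_perp A
  rw [← h2] at h3
  unfold pr at h1 ⊢
  omega

theorem pr_nonneg (A B : Submodule L (Fin d → L)) : 0 ≤ pr A B := by
  have h := Submodule.finrank_mono (le_sup_right : perp B ≤ A ⊔ perp B)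
  unfold pr
  omega

/-- `pr A B ≤ pr A' B` if `A ≤ A' + B^⊥`. -/
theorem pr_le_of_le_sup {A A' B : Submodule L (Fin d → L)} (h : A ≤ A' ⊔ perp B) :
    pr A B ≤ pr A' B := by
  have h := Submodule.finrank_mono (sup_le h le_sup_right : A ⊔ perp B ≤ A' ⊔ perp B)
  unfold pr
  omega

theorem pr_mono {A A' B B' : Submodule L (Fin d → L)} (h : A ≤ A') (h' : B ≤ B') :
    pr A B ≤ pr A' B' := by
  calc pr A B ≤ pr A' B := pr_le_of_le_sup (h.trans le_sup_left)
    _ = pr B A' := pr_comm _ _
    _ ≤ pr B' A' := pr_le_of_le_sup (h'.trans le_sup_left)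
    _ = pr A' B' := pr_comm _ _

theorem pr_top : pr (⊤ : Submodule L (Fin d → L)) ⊤ = d := by
  unfold pr
  rw [perp_top, sup_bot_eq, finrank_top, finrank_fin_fun]
  simp

private theorem finrank_sup_span_le (A : Submodule L (Fin d → L)) (c : Fin d → L) :
    finrank L (A ⊔ Submodule.span L {c} : Submodule L (Fin d → L)) ≤ finrank L A + 1 := by
  refine (Submodule.finrank_add_le_finrank_add_finrank _ _).trans ?_
  have := finrank_span_le_card (R := L) ({c} : Set (Fin d → L))
  simp only [Set.toFinset_singleton, Finset.card_singleton] at this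
  omega

private theorem finrank_sup_span_eq {A : Submodule L (Fin d → L)} {c : Fin d → L} (hc : c ∉ A) :
    finrank L (A ⊔ Submodule.span L {c} : Submodule L (Fin d → L)) = finrank L A + 1 := by
  rw [sup_comm, sup_comm]
  exact Submodule.finrank_sup_span_singleton hc

private theorem sup_span_eq {A : Submodule L (Fin d → L)} {c : Fin d → L} (hc : c ∈ A) :
    A ⊔ Submodule.span L {c} = A := by
  rw [sup_eq_left, Submodule.span_singleton_le_iff_mem]
  exact hc

private theorem pr_cut (A B : Submodule L (Fin d → L)) (c : Fin d → L) :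
    pr A (B ⊓ cp c) = (finrank L (A ⊔ perp B ⊔ Submodule.span L {c} :
      Submodule L (Fin d → L)) : ℤ) -
      finrank L (perp B ⊔ Submodule.span L {c} : Submodule L (Fin d → L)) := by
  unfold pr
  rw [perp_inf_cp, sup_assoc]

theorem pr_cut_ge (A B : Submodule L (Fin d → L)) (c : Fin d → L) :
    pr A B - 1 ≤ pr A (B ⊓ cp c) := by
  rw [pr_cut]
  have h1 := Submodule.finrank_mono
    (le_sup_left : A ⊔ perp B ≤ A ⊔ perp B ⊔ Submodule.span L {c})
  have h2 := finrank_sup_span_le (perp B) c
  unfold pr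
  omega

/-- if the rank drops when cutting `B`, then `c ∈ A + B^⊥`. -/
theorem mem_of_pr_cut_lt {A B : Submodule L (Fin d → L)} {c : Fin d → L}
    (h : pr A (B ⊓ cp c) < pr A B) : c ∈ A ⊔ perp B := by
  by_contra hc
  rw [pr_cut] at h
  have h1 := finrank_sup_span_eq hc
  have h2 := finrank_sup_span_le (perp B) c
  unfold pr at h
  omega

theorem pr_cut_cut_ge (A B : Submodule L (Fin d → L)) (c : Fin d → L) :
    pr A B - 2 ≤ pr (A ⊓ cp c) (B ⊓ cp c) := by
  have h1 := pr_cut_ge (A ⊓ cp c) B c
  have h2 := pr_cut_ge B A c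
  rw [pr_comm B (A ⊓ cp c), pr_comm B A] at h2
  omega

theorem D2_of_lt {A B : Submodule L (Fin d → L)} {c : Fin d → L}
    (h : pr (A ⊓ cp c) (B ⊓ cp c) < pr A B - 1) : D2 A B c := by
  have h1 := pr_cut_ge (A ⊓ cp c) B c
  have h2 := pr_cut_ge B A c
  rw [pr_comm B (A ⊓ cp c), pr_comm B A] at h2
  refine ⟨mem_of_pr_cut_lt ?_, mem_of_pr_cut_lt ?_⟩
  · rw [pr_comm B (A ⊓ cp c), pr_comm B A]
    omega
  · omega

theorem pr_of_D2 {A B : Submodule L (Fin d → L)} {c : Fin d → L}
    (h : D2 A B c) (hA : c ∉ perp A) (hB : c ∉ perp B) :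
    pr (A ⊓ cp c) (B ⊓ cp c) = pr A B - 2 := by
  obtain ⟨h1, h2⟩ := h
  have h3 : pr B (A ⊓ cp c) = pr B A - 1 := by
    rw [pr_cut, sup_span_eq h1, finrank_sup_span_eq hA]
    unfold pr
    push_cast
    ring
  have h4 : pr (A ⊓ cp c) (B ⊓ cp c) = pr (A ⊓ cp c) B - 1 := by
    rw [pr_cut, sup_span_eq h2, finrank_sup_span_eq hB]
    unfold pr
    push_cast
    ring
  rw [h4, pr_comm (A ⊓ cp c) B, h3, pr_comm B A]
  ring

/-- Triangle lemma. -/
theorem triangle {F S T : Submodule L (Fin d → L)} (h : ∀ w ∈ F, D2 S T w)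
    (h1 : pr S T ≤ pr F S) (h2 : pr S T ≤ pr F T) :
    pr F T = pr S T ∧ ∀ u ∈ S, D2 F T u := by
  have hFS : F ≤ S ⊔ perp T := by
    intro w hw
    have := (h w hw).2
    exact (sup_le_sup_right inf_le_left _ : (S ⊓ cp w) ⊔ perp T ≤ S ⊔ perp T) this
  have hFT : F ≤ T ⊔ perp S := fun w hw => (h w hw).1
  have e1 : pr F T = pr S T := le_antisymm (pr_le_of_le_sup hFS) h2
  have e2 : F ⊔ perp T = S ⊔ perp T := by
    apply Submodule.eq_of_le_of_finrank_le (sup_le hFS le_sup_right)
    unfold pr at e1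
    omega
  -- the key fact
  have key : ∀ w ∈ F, ∀ u ∈ S, w - u ∈ perp T → w ⬝ᵥ u = 0 := by
    intro w hw u hu hwu
    obtain ⟨s, hs, n, hn, hsn⟩ := Submodule.mem_sup.1 (h w hw).2
    obtain ⟨t, ht, m, hm, htm⟩ := Submodule.mem_sup.1 (h w hw).1
    have hsu : s - u ∈ perp T := by
      have : s - u = (w - u) - n := by
        rw [← hsn]
        abel
      rw [this]
      exact Submodule.sub_mem _ hwu hn
    have h3 : w ⬝ᵥ s = 0 := hs.2
    have h4 : w ⬝ᵥ (s - u) = 0 := by
      rw [← htm, add_dotProduct, hsu t ht, dotProduct_comm, hm (s - u) (Submodule.sub_mem _ hs.1 hu),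
        add_zero]
    rw [dotProduct_sub, h3, zero_sub, neg_eq_zero] at h4
    exact h4
  refine ⟨e1, fun u hu => ?_⟩
  have hu' : u ∈ F ⊔ perp T := by
    rw [e2]
    exact Submodule.mem_sup_left hu
  obtain ⟨w, hw, n, hn, hwn⟩ := Submodule.mem_sup.1 hu'
  have hwu : w - u ∈ perp T := by
    have : w - u = -n := by
      rw [← hwn]
      abel
    rw [this]
    exact Submodule.neg_mem _ hn
  have h5 := key w hw u hu hwu
  refine ⟨?_, ?_⟩
  · have h6 : T ⊔ perp F = perp (perp T ⊓ F) := by
      rw [perp_inf, perp_perp]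
    rw [h6]
    rintro w0 ⟨hw0, hw0F⟩
    have h7 := key (w + w0) (Submodule.add_mem _ hw hw0F) u hu (by
      have : w + w0 - u = (w - u) + w0 := by abel
      rw [this]
      exact Submodule.add_mem _ hwu hw0)
    rw [add_dotProduct, h5, zero_add] at h7
    exact h7
  · rw [← hwn]
    apply Submodule.add_mem
    · apply Submodule.mem_sup_left
      refine ⟨hw, ?_⟩
      change (w + n) ⬝ᵥ w = 0
      rw [hwn, dotProduct_comm]
      exact h5
    · exact Submodule.mem_sup_right hn

end Pool.Agent.Lib.MP_a2d8aa_co.Rk
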