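import Pool.Agent.Lib.MP_a2d8aa_co.Rk.LinAlg

/-! Rational subspaces and elementary consequences of genericity. -/

open Matrix Module

namespace Pool.Agent.Lib.MP_a2d8aa_co.Rk

variable {L : Type*} [Field L] {d : ℕ}

theorem le_adj (K : Subfield L) (c : Fin d → L) : K ≤ adj K c := le_sup_left

theorem coord_mem_adj (K : Subfield L) (c : Fin d → L) (i : Fin d) : c i ∈ adj K c := by
  have h : Subfield.closure (Set.range c) ≤ adj K c := le_sup_right
  exact h (Subfield.subset_closure ⟨i, rfl⟩)

theorem adj_comm (K : Subfield L) (a b : Fin d → L) : adj (adj K a) b = adj (adj K b) a := by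
  unfold adj
  exact sup_right_comm _ _ _

/-- coordinatewise projection by a `K`-linear functional of `L`. -/
noncomputable def proj {K : Subfield L} (π : L →ₗ[K] K) (x : Fin d → L) : Fin d → L :=
  fun i => ((π (x i) : K) : L)

private theorem proj_add {K : Subfield L} (π : L →ₗ[K] K) (x y : Fin d → L) :
    proj π (x + y) = proj π x + proj π y := by
  funext i
  simp [proj]

private theorem proj_zero {K : Subfield L} (π : L →ₗ[K] K) :
    proj π (0 : Fin d → L) = 0 := by
  funext i
  simp [proj]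

private theorem pi_mul {K : Subfield L} (π : L →ₗ[K] K) {k : L} (hk : k ∈ K) (x : L) :
    ((π (k * x) : K) : L) = k * ((π x : K) : L) := by
  have h : k * x = (⟨k, hk⟩ : K) • x := rfl
  rw [h, map_smul]
  rfl

theorem Rat.proj_mem {K : Subfield L} {A : Submodule L (Fin d → L)} (hA : Rat K A)
    (π : L →ₗ[K] K) {x : Fin d → L} (hx : x ∈ A) : proj π x ∈ A := by
  obtain ⟨S, hS, rfl⟩ := hA
  induction hx using Submodule.span_induction generalizing π with
  | mem s hs =>
    have h : proj π s = ((π 1 : K) : L) • s := by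
      funext i
      have := pi_mul π (hS s hs i) 1
      rw [mul_one] at this
      simp only [proj, this, Pi.smul_apply, smul_eq_mul, mul_comm]
    rw [h]
    exact Submodule.smul_mem _ _ (Submodule.subset_span hs)
  | zero => rw [proj_zero]; exact Submodule.zero_mem _
  | add x y _ _ hx hy => rw [proj_add]; exact Submodule.add_mem _ (hx π) (hy π)
  | smul r x _ hx =>
    have h : proj π (r • x) = proj (π.comp (LinearMap.mulLeft K r)) x := by
      funext i
      simp [proj]
    rw [h]
    exact hx _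

theorem Rat.of_proj {K : Subfield L} {A : Submodule L (Fin d → L)}
    (h : ∀ (π : L →ₗ[K] K) (x : Fin d → L), x ∈ A → proj π x ∈ A) : Rat K A := by
  classical
  refine ⟨{s | s ∈ A ∧ ∀ i, s i ∈ K}, fun s hs => hs.2, ?_⟩
  apply le_antisymm
  · exact Submodule.span_le.mpr fun s hs => hs.1
  · intro x hx
    let b := Basis.ofVectorSpace K L
    let J : Finset (Basis.ofVectorSpaceIndex K L) :=
      Finset.univ.biUnion fun i : Fin d => (b.repr (x i)).support
    have hsum : x = ∑ j ∈ J, b j • proj (b.coord j) x := by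
      funext i
      rw [Finset.sum_apply]
      have h1 := b.linearCombination_repr (x i)
      rw [Finsupp.linearCombination_apply,
        Finsupp.sum_of_support_subset (s := J) (b.repr (x i)) (fun j hj => Finset.mem_biUnion.mpr
          ⟨i, Finset.mem_univ _, hj⟩) (fun i a => a • b i) (fun j _ => zero_smul _ _)] at h1
      conv_lhs => rw [← h1]
      refine Finset.sum_congr rfl fun j _ => ?_
      simp only [Pi.smul_apply, smul_eq_mul, proj, Basis.coord_apply]
      rw [mul_comm]
      rfl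
    rw [hsum]
    refine Submodule.sum_mem _ fun j _ => Submodule.smul_mem _ _ (Submodule.subset_span
      ⟨h _ _ hx, fun i => ?_⟩)
    exact Subtype.coe_prop _

theorem Rat.mono {K K' : Subfield L} (h : K ≤ K') {A : Submodule L (Fin d → L)} (hA : Rat K A) :
    Rat K' A := by
  obtain ⟨S, hS, hs⟩ := hA
  exact ⟨S, fun s hs i => h (hS s hs i), hs⟩

theorem Rat.top (K : Subfield L) : Rat K (⊤ : Submodule L (Fin d → L)) :=
  Rat.of_proj fun _ _ _ => Submodule.mem_top

theorem Rat.inf {K : Subfield L} {A B : Submodule L (Fin d → L)} (hA : Rat K A) (hB : Rat K B) :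
    Rat K (A ⊓ B) :=
  Rat.of_proj fun π _ hx => ⟨hA.proj_mem π hx.1, hB.proj_mem π hx.2⟩

theorem Rat.sup {K : Subfield L} {A B : Submodule L (Fin d → L)} (hA : Rat K A) (hB : Rat K B) :
    Rat K (A ⊔ B) := by
  obtain ⟨S, hS, rfl⟩ := hA
  obtain ⟨T, hT, rfl⟩ := hB
  refine ⟨S ∪ T, ?_, Submodule.span_union S T⟩
  rintro s (hs | hs) i
  · exact hS s hs i
  · exact hT s hs i

private theorem dot_proj {K : Subfield L} (π : L →ₗ[K] K) {s : Fin d → L} (hs : ∀ i, s i ∈ K)
    (x : Fin d → L) : s ⬝ᵥ proj π x = ((π (s ⬝ᵥ x) : K) : L) := by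
  simp only [dotProduct, proj, map_sum]
  push_cast
  exact Finset.sum_congr rfl fun i _ => (pi_mul π (hs i) (x i)).symm

private theorem mem_perp_span {S : Set (Fin d → L)} {x : Fin d → L}
    (h : ∀ s ∈ S, s ⬝ᵥ x = 0) : x ∈ Rk.perp (Submodule.span L S) := by
  intro a ha
  induction ha using Submodule.span_induction with
  | mem s hs => exact h s hs
  | zero => exact zero_dotProduct x
  | add y z _ _ hy hz => rw [add_dotProduct, hy, hz, add_zero]
  | smul r y _ hy => rw [smul_dotProduct, hy, smul_zero]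

theorem Rat.perp {K : Subfield L} {A : Submodule L (Fin d → L)} (hA : Rat K A) :
    Rat K (perp A) := by
  obtain ⟨S, hS, rfl⟩ := hA
  refine Rat.of_proj fun π x hx => mem_perp_span fun s hs => ?_
  rw [dot_proj π (hS s hs), hx s (Submodule.subset_span hs), map_zero]
  rfl

theorem Rat.span_singleton {K : Subfield L} {c : Fin d → L} (hc : ∀ i, c i ∈ K) :
    Rat K (Submodule.span L {c}) :=
  ⟨{c}, by rintro s rfl i; exact hc i, rfl⟩

theorem Rat.cp {K : Subfield L} {c : Fin d → L} (hc : ∀ i, c i ∈ K) : Rat K (cp c) := by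
  rw [← perp_span_singleton]
  exact (Rat.span_singleton hc).perp

/-- cutting by `c` keeps rationality over `K(c)`. -/
theorem Rat.cut {K : Subfield L} {A : Submodule L (Fin d → L)} (hA : Rat K A) (c : Fin d → L) :
    Rat (adj K c) (A ⊓ Rk.cp c) :=
  (hA.mono (le_adj K c)).inf (Rat.cp (coord_mem_adj K c))

theorem IsGen.mono {K K' : Subfield L} (h : K ≤ K') {A : Submodule L (Fin d → L)} {c : Fin d → L}
    (hc : IsGen K' A c) : IsGen K A c := by
  refine ⟨hc.1, fun φ hφ w hw => ?_⟩
  have key : ∀ v : Fin d → L, MvPolynomial.aeval v (MvPolynomial.map (Subfield.inclusion h) φ)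
      = MvPolynomial.aeval v φ := by
    intro v
    rw [MvPolynomial.aeval_def, MvPolynomial.aeval_def, MvPolynomial.eval₂_map]
    rfl
  have := hc.2 (MvPolynomial.map (Subfield.inclusion h) φ) (by rw [key]; exact hφ) w hw
  rw [key] at this
  exact this

/-- linear genericity -/
theorem IsGen.le_of_mem {K : Subfield L} {A W : Submodule L (Fin d → L)} {c : Fin d → L}
    (hc : IsGen K A c) (hW : Rat K W) (h : c ∈ W) : A ≤ W := by
  obtain ⟨S, hS, hSW⟩ := hW.perp
  intro w hw
  rw [← perp_perp W, ← hSW]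
  refine mem_perp_span fun s hs => ?_
  let φ : MvPolynomial (Fin d) K := ∑ i, MvPolynomial.C ⟨s i, hS s hs i⟩ * MvPolynomial.X i
  have key : ∀ v : Fin d → L, MvPolynomial.aeval v φ = s ⬝ᵥ v := by
    intro v
    simp only [φ, map_sum, map_mul, MvPolynomial.aeval_X, MvPolynomial.aeval_C, dotProduct]
    rfl
  rw [← key]
  refine hc.2 φ ?_ w hw
  rw [key]
  have hsp : s ∈ Rk.perp W := by rw [← hSW]; exact Submodule.subset_span hs
  rw [dotProduct_comm]
  exact hsp c h

/-- quadratic genericity: `x ⬝ x ≠ 0` for generic `x`, unless the form `x ⬝ x` vanishes. -/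
theorem IsGen.self_ne {K : Subfield L} {A : Submodule L (Fin d → L)} {c : Fin d → L}
    (hc : IsGen K A c) {x : Fin d → L} (hx : x ∈ A) (h : x ⬝ᵥ x ≠ 0) : c ⬝ᵥ c ≠ 0 := by
  intro h0
  apply h
  let φ : MvPolynomial (Fin d) K := ∑ i, MvPolynomial.X i * MvPolynomial.X i
  have key : ∀ v : Fin d → L, MvPolynomial.aeval v φ = v ⬝ᵥ v := by
    intro v
    simp only [φ, map_sum, map_mul, MvPolynomial.aeval_X, dotProduct]
  rw [← key]
  refine hc.2 φ ?_ x hx
  rw [key, h0]

/-- quadratic genericity for the double drop condition -/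
theorem IsGen.D2 {K : Subfield L} {A B C : Submodule L (Fin d → L)} {c : Fin d → L}
    (hc : IsGen K C c) (hA : Rat K A) (hB : Rat K B) (hC : Rat K C)
    (h : Rk.D2 A B c) : ∀ w ∈ C, Rk.D2 A B w := by
  have h1 : C ≤ B ⊔ Rk.perp A := hc.le_of_mem (hB.sup hA.perp) h.1
  have h2 : C ≤ A ⊔ Rk.perp B := hc.le_of_mem (hA.sup hB.perp)
    ((sup_le_sup_right inf_le_left _ : (A ⊓ Rk.cp c) ⊔ Rk.perp B ≤ A ⊔ Rk.perp B) h.2)
  -- a linear splitting
  let f : (A × Rk.perp B) →ₗ[L] (Fin d → L) := A.subtype.coprod (Rk.perp B).subtype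
  obtain ⟨g, hg⟩ := LinearMap.exists_rightInverse_of_surjective f.rangeRestrict
    f.range_rangeRestrict
  obtain ⟨g', hg'⟩ := LinearMap.exists_extend g
  have hfg : ∀ w ∈ A ⊔ Rk.perp B, ((g' w).1 : Fin d → L) + ((g' w).2 : Fin d → L) = w := by
    intro w hw
    obtain ⟨a, ha, n, hn, rfl⟩ := Submodule.mem_sup.mp hw
    have hr : a + n ∈ LinearMap.range f := ⟨(⟨a, ha⟩, ⟨n, hn⟩), by simp [f]⟩
    have e1 := LinearMap.congr_fun hg ⟨a + n, hr⟩
    have e2 := LinearMap.congr_fun hg' ⟨a + n, hr⟩
    simp only [LinearMap.comp_apply, Submodule.subtype_apply] at e2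
    rw [LinearMap.comp_apply, ← e2] at e1
    have e3 : f (g' (a + n)) = a + n := congrArg Subtype.val e1
    exact e3
  let T : (Fin d → L) →ₗ[L] (Fin d → L) := (A.subtype.comp (LinearMap.fst L A (Rk.perp B))).comp g'
  have hTA : ∀ w, T w ∈ A := fun w => (g' w).1.2
  have hTB : ∀ w ∈ C, w - T w ∈ Rk.perp B := by
    intro w hw
    have e := hfg w (h2 hw)
    have : w - T w = ((g' w).2 : Fin d → L) := by
      rw [sub_eq_iff_eq_add, add_comm]
      exact e.symm
    rw [this]
    exact (g' w).2.2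
  -- retraction
  obtain ⟨π, hπ⟩ := LinearMap.exists_leftInverse_of_injective (Algebra.linearMap K L)
    (LinearMap.ker_eq_bot.mpr (algebraMap K L).injective)
  have hπK : ∀ k : L, k ∈ K → ((π k : K) : L) = k := by
    intro k hk
    have := LinearMap.congr_fun hπ ⟨k, hk⟩
    simp only [LinearMap.comp_apply, LinearMap.id_apply] at this
    have h' : (Algebra.linearMap K L) ⟨k, hk⟩ = k := rfl
    rw [h'] at this
    rw [this]
  let m : Fin d → Fin d → K := fun i j => π (T (Pi.single j 1) i)
  let M : Matrix (Fin d) (Fin d) L := Matrix.of fun i j => ((m i j : K) : L)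
  have hT : ∀ w i, T w i = ∑ j, T (Pi.single j 1) i * w j := by
    intro w i
    conv_lhs => rw [pi_eq_sum_univ' w]
    rw [map_sum, Finset.sum_apply]
    refine Finset.sum_congr rfl fun j _ => ?_
    rw [map_smul, Pi.smul_apply, smul_eq_mul, mul_comm]
  have hMK : ∀ w : Fin d → L, (∀ i, w i ∈ K) → M *ᵥ w = proj π (T w) := by
    intro w hw
    funext i
    have e : T w i = ∑ j, w j * T (Pi.single j 1) i := by
      rw [hT]
      exact Finset.sum_congr rfl fun j _ => mul_comm _ _
    simp only [proj, e, map_sum]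
    push_cast
    simp only [Matrix.mulVec, dotProduct, M, Matrix.of_apply, m]
    refine Finset.sum_congr rfl fun j _ => ?_
    rw [pi_mul π (hw j), mul_comm]
  have hprojK : ∀ w : Fin d → L, (∀ i, w i ∈ K) → proj π w = w := by
    intro w hw
    funext i
    exact hπK _ (hw i)
  have proj_sub : ∀ x y : Fin d → L, proj π (x - y) = proj π x - proj π y := by
    intro x y
    funext i
    simp [proj]
  obtain ⟨S, hS, hSC⟩ := hC
  have hMA : ∀ w ∈ C, M *ᵥ w ∈ A ∧ w - M *ᵥ w ∈ Rk.perp B := by
    intro w hw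
    rw [← hSC] at hw
    induction hw using Submodule.span_induction with
    | mem s hs =>
      have hsC : s ∈ C := by rw [← hSC]; exact Submodule.subset_span hs
      rw [hMK s (hS s hs)]
      refine ⟨hA.proj_mem π (hTA s), ?_⟩
      have e : s - proj π (T s) = proj π (s - T s) := by
        rw [proj_sub, hprojK s (hS s hs)]
      rw [e]
      exact hB.perp.proj_mem π (hTB s hsC)
    | zero =>
      rw [Matrix.mulVec_zero, sub_zero]
      exact ⟨Submodule.zero_mem _, Submodule.zero_mem _⟩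
    | add x y _ _ hx hy =>
      rw [Matrix.mulVec_add, add_sub_add_comm]
      exact ⟨Submodule.add_mem _ hx.1 hy.1, Submodule.add_mem _ hx.2 hy.2⟩
    | smul r x _ hx =>
      rw [Matrix.mulVec_smul, ← smul_sub]
      exact ⟨Submodule.smul_mem _ _ hx.1, Submodule.smul_mem _ _ hx.2⟩
  let φ : MvPolynomial (Fin d) K :=
    ∑ i, MvPolynomial.X i * ∑ j, MvPolynomial.C (m i j) * MvPolynomial.X j
  have key : ∀ v : Fin d → L, MvPolynomial.aeval v φ = v ⬝ᵥ (M *ᵥ v) := by
    intro v
    simp only [φ, map_sum, map_mul, MvPolynomial.aeval_X, MvPolynomial.aeval_C, dotProduct,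
      Matrix.mulVec, M, Matrix.of_apply]
    rfl
  have hcC : c ∈ C := hc.1
  have hc0 : MvPolynomial.aeval c φ = 0 := by
    rw [key]
    obtain ⟨a, ha, n, hn, han⟩ := Submodule.mem_sup.mp h.2
    obtain ⟨b, hb, p, hp, hbp⟩ := Submodule.mem_sup.mp h.1
    have hMc := hMA c hcC
    -- difference
    have hd1 : M *ᵥ c - a ∈ A := Submodule.sub_mem _ hMc.1 ha.1
    have hd2 : M *ᵥ c - a ∈ Rk.perp B := by
      have e : M *ᵥ c - a = n - (c - M *ᵥ c) := by
        rw [← han]
        abel
      rw [e]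
      exact Submodule.sub_mem _ hn hMc.2
    have h0 : c ⬝ᵥ (M *ᵥ c - a) = 0 := by
      rw [← hbp, add_dotProduct, hbp, hd2 b hb, zero_add, dotProduct_comm]
      exact hp _ hd1
    rw [dotProduct_sub] at h0
    have h3 : c ⬝ᵥ a = 0 := ha.2
    rw [h3, sub_zero] at h0
    exact h0
  intro w hw
  refine ⟨h1 hw, ?_⟩
  have hq := hc.2 φ hc0 w hw
  rw [key] at hq
  have hMw := hMA w hw
  refine Submodule.mem_sup.mpr ⟨M *ᵥ w, ⟨hMw.1, hq⟩, w - M *ᵥ w, hMw.2, ?_⟩
  abel

end Pool.Agent.Lib.MP_a2d8aa_co.Rk
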