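import Pool.Agent.Lib.MP_a2d8aa_co.Rk.Degen

/-! The bound by the minimum degree of an arbitrary induced subgraph, and orders of
degenerate graphs. -/

open Matrix Module

namespace Pool.Agent.Lib.MP_a2d8aa_co.Rk

section sub

variable {V : Type*} (G : SimpleGraph V)

/-- maximum adjacency orders inside `U` -/
def MAU (U : Set V) : List V → Prop
  | [] => True
  | x :: l => MAU U l ∧ x ∉ l ∧ x ∈ U ∧
      ∀ y ∈ U, y ∉ l → cnt (G.neighborSet y) l ≤ cnt (G.neighborSet x) l

theorem dom_of_mau {U : Set V} {l : List V} (h : MAU G U l) {y : V} (hyU : y ∈ U) (hy : y ∉ l) :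
    Dom G (G.neighborSet y) l := by
  induction l with
  | nil => trivial
  | cons x l ih =>
    rw [List.mem_cons, not_or] at hy
    exact ⟨ih h.1 hy.2, h.2.2.2 y hyU hy.2⟩

theorem lev_ge_sub_length (d : ℤ) (w : List V) (S : Set V) : d - w.length ≤ lev G d w S := by
  induction w generalizing S with
  | nil => simp [lev]
  | cons x w ih =>
    have h1 := ih S
    have h2 := ih (G.neighborSet x)
    by_cases hx : x ∈ S
    · rw [lev_cons_mem G hx, List.length_cons]
      push_cast
      omega
    · rw [lev_cons_not_mem G hx, List.length_cons]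
      push_cast
      omega

theorem lev_append_of_dom {U : Set V} {l : List V} (h : MAU G U l) (w : List V) {S : Set V}
    (hS : Dom G S l) (d : ℤ) :
    cnt S l + (d - w.length) - l.length ≤ lev G d (l ++ w) S := by
  induction l generalizing S with
  | nil => simpa [cnt] using lev_ge_sub_length G d w S
  | cons x l ih =>
    have h1 := ih h.1 hS.1
    have h2 := ih h.1 (dom_of_mau G h.1 h.2.2.1 h.2.1)
    have h3 := hS.2
    by_cases hx : x ∈ S
    · rw [List.cons_append, lev_cons_mem G hx, cnt_cons_mem hx, List.length_cons]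
      push_cast
      omega
    · rw [List.cons_append, lev_cons_not_mem G hx, cnt_cons_not_mem hx, List.length_cons]
      push_cast
      omega

theorem nodup_of_mau {U : Set V} {l : List V} (h : MAU G U l) : l.Nodup := by
  induction l with
  | nil => exact List.nodup_nil
  | cons x l ih => exact List.nodup_cons.2 ⟨h.2.1, ih h.1⟩

theorem mem_of_mau {U : Set V} {l : List V} (h : MAU G U l) : ∀ v ∈ l, v ∈ U := by
  induction l with
  | nil => intro v hv; simp at hv
  | cons x l ih =>
    intro v hv
    rcases List.mem_cons.1 hv with rfl | hv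
    · exact h.2.2.1
    · exact ih h.1 v hv

theorem exists_mau [DecidableEq V] (U : Finset V) (k : ℕ) (hk : k ≤ U.card) :
    ∃ l : List V, MAU G (U : Set V) l ∧ l.length = k := by
  classical
  induction k with
  | zero => exact ⟨[], trivial, rfl⟩
  | succ k ih =>
    obtain ⟨l, hl, hlen⟩ := ih (by omega)
    have hnd := nodup_of_mau G hl
    have hne : (U \ l.toFinset : Finset V).Nonempty := by
      rw [← Finset.card_pos]
      have h1 := Finset.le_card_sdiff l.toFinset U
      rw [List.toFinset_card_of_nodup hnd] at h1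
      omega
    obtain ⟨x, hx, hmax⟩ := Finset.exists_max_image _ (fun y => cnt (G.neighborSet y) l) hne
    simp only [Finset.mem_sdiff, List.mem_toFinset] at hx hmax
    exact ⟨x :: l, ⟨hl, hx.2, hx.1, fun y hyU hy => hmax y ⟨hyU, hy⟩⟩, by simp [hlen]⟩

theorem good_of_short {d : ℕ} {w : List V} (hnd : w.Nodup) (hw : w.length ≤ d) :
    Good G (d : ℤ) w := by
  induction w with
  | nil => trivial
  | cons x w ih =>
    rw [List.nodup_cons] at hnd
    rw [List.length_cons] at hw
    refine ⟨ih hnd.2 (by omega), hnd.1, ?_⟩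
    have := lev_ge_sub_length G (d : ℤ) w (G.neighborSet x)
    omega

theorem length_eq_cnt_add (S : Set V) (l : List V) : l.length = cnt S l + ncnt S l := by
  classical
  induction l with
  | nil => simp [cnt, ncnt]
  | cons y l ih =>
    by_cases hy : y ∈ S
    · rw [cnt_cons_mem hy, List.length_cons, ncnt, List.countP_cons, ih]
      simp only [hy, not_true_eq_false, decide_false, Bool.false_eq_true, if_false]
      unfold ncnt
      omega
    · rw [cnt_cons_not_mem hy, List.length_cons, ncnt, List.countP_cons, ih]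
      simp only [hy, not_false_eq_true, decide_true, if_true]
      unfold ncnt
      omega

theorem ncnt_le_card [DecidableEq V] (S : Set V) (l : List V) (hnd : l.Nodup) (Z : Finset V)
    (hZ : ∀ v ∈ l, v ∉ S → v ∈ Z) : ncnt S l ≤ Z.card := by
  classical
  unfold ncnt
  rw [List.countP_eq_length_filter]
  have h4 : (l.filter (fun v => decide (v ∉ S))).Nodup := hnd.filter _
  rw [← List.toFinset_card_of_nodup h4]
  apply Finset.card_le_card
  intro v hv
  simp only [List.mem_toFinset, List.mem_filter, decide_eq_true_eq] at hv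
  exact hZ v hv.1 hv.2

/-- the order `V \ U` first, then `U` in maximum adjacency order, is good -/
theorem good_append {d k : ℕ} [DecidableEq V] [DecidableRel G.Adj] {U : Finset V} {l w : List V}
    (hmau : MAU G (U : Set V) l) (hw : w.Nodup) (hwU : ∀ v ∈ w, v ∉ U)
    (hU : ∀ u ∈ U, k ≤ (U.filter (fun v => G.Adj u v)).card)
    (hd : w.length + U.card ≤ d + k) (hwd : w.length ≤ d) : Good G (d : ℤ) (l ++ w) := by
  induction l with
  | nil => exact good_of_short G hw hwd
  | cons x l ih =>
    rw [List.cons_append]
    refine ⟨ih hmau.1, ?_, ?_⟩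
    · rw [List.mem_append, not_or]
      refine ⟨hmau.2.1, fun hxw => hwU x hxw hmau.2.2.1⟩
    · have h1 := lev_append_of_dom G hmau.1 w (dom_of_mau G hmau.1 hmau.2.2.1 hmau.2.1) (d : ℤ)
      have h2 := length_eq_cnt_add (G.neighborSet x) l
      have hxU : x ∈ U := hmau.2.2.1
      have h3 : ncnt (G.neighborSet x) l ≤
          ((U.filter (fun v => ¬ G.Adj x v)).erase x).card := by
        refine ncnt_le_card _ _ (nodup_of_mau G hmau.1) _ ?_
        intro v hv hvS
        rw [Finset.mem_erase, Finset.mem_filter]
        refine ⟨?_, mem_of_mau G hmau.1 v hv, hvS⟩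
        rintro rfl
        exact hmau.2.1 hv
      have hxx : x ∈ U.filter (fun v => ¬ G.Adj x v) := by
        rw [Finset.mem_filter]
        exact ⟨hxU, by simp⟩
      have h4 := Finset.card_erase_add_one hxx
      have h5 := Finset.card_filter_add_card_filter_not (s := U)
        (fun v => G.Adj x v)
      have h6 := hU x hxU
      omega

/-- Every graph `G` has a faithful orthogonal representation in `L ^ d` when
`d ≥ |V| - δ(G[U])` for some nonempty `U` and `L` is uncountable. -/
theorem exists_faithful_sub {L : Type*} [Field L] (hL : Cardinal.aleph0 < Cardinal.mk L)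
    [Fintype V] [DecidableEq V] [DecidableRel G.Adj]
    {U : Finset V} (hne : U.Nonempty) (k d : ℕ)
    (hU : ∀ u ∈ U, k ≤ (U.filter (fun v => G.Adj u v)).card)
    (hd : Fintype.card V ≤ d + k) :
    ∃ c : V → Fin d → L, ∀ u v, u ≠ v → (c u ⬝ᵥ c v ≠ 0 ↔ G.Adj u v) := by
  classical
  obtain ⟨l, hl, hlen⟩ := exists_mau G U U.card le_rfl
  have hnd := nodup_of_mau G hl
  set w := (Finset.univ \ U : Finset V).toList with hw
  have hwnd : w.Nodup := Finset.nodup_toList _
  have hwlen : w.length + U.card = Fintype.card V := by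
    rw [hw, Finset.length_toList, Finset.card_univ_sdiff]
    have := Finset.card_le_univ U
    omega
  have hwU : ∀ v ∈ w, v ∉ U := by
    intro v hv
    rw [hw, Finset.mem_toList, Finset.mem_sdiff] at hv
    exact hv.2
  have hk : k + 1 ≤ U.card := by
    obtain ⟨u, hu⟩ := hne
    have h1 := hU u hu
    have h2 : U.filter (fun v => G.Adj u v) ⊆ U.erase u := by
      intro v hv
      rw [Finset.mem_filter] at hv
      rw [Finset.mem_erase]
      refine ⟨?_, hv.1⟩
      rintro rfl
      exact G.loopless.irrefl _ hv.2
    have h3 := Finset.card_le_card h2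
    have h4 := Finset.card_erase_add_one hu
    omega
  have hgood : Good G (d : ℤ) (l ++ w) :=
    good_append G hl hwnd hwU hU (by omega) (by omega)
  obtain ⟨c, hc⟩ := exists_faithful_of_good (d := d) G hL (l ++ w) hgood
  have hall : ∀ v, v ∈ l ++ w := by
    intro v
    rw [List.mem_append]
    by_cases hv : v ∈ U
    · left
      have h1 : l.toFinset ⊆ U := by
        intro y hy
        exact mem_of_mau G hl y (List.mem_toFinset.1 hy)
      have h2 : l.toFinset = U := by
        apply Finset.eq_of_subset_of_card_le h1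
        rw [List.toFinset_card_of_nodup hnd, hlen]
      rw [← List.mem_toFinset, h2]
      exact hv
    · right
      rw [hw, Finset.mem_toList, Finset.mem_sdiff]
      exact ⟨Finset.mem_univ v, hv⟩
  exact ⟨c, fun u v huv => hc u (hall u) v (hall v) huv⟩

/-- the degenerate order, given as a list of the elements of `U` -/
theorem exists_degen [DecidableEq V] [DecidableRel G.Adj]
    {D : ℕ} : ∀ (n : ℕ) (U : Finset V), U.card = n →
    (∀ W : Finset V, W ⊆ U → W.Nonempty →
      ∃ u ∈ W, ((W.erase u).filter (fun v => ¬ G.Adj u v)).card ≤ D) →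
    ∃ l : List V, Degen G D l ∧ (∀ v, v ∈ l ↔ v ∈ U) := by
  intro n
  induction n with
  | zero =>
    intro U hU _
    rw [Finset.card_eq_zero] at hU
    subst hU
    exact ⟨[], trivial, by simp⟩
  | succ n ih =>
    intro U hU h
    obtain ⟨u, hu, hcard⟩ := h U Finset.Subset.rfl (Finset.card_pos.1 (by omega))
    have h1 := Finset.card_erase_add_one hu
    obtain ⟨l, hl, hmem⟩ := ih (U.erase u) (by omega)
      (fun W hW hWne => h W (hW.trans (Finset.erase_subset _ _)) hWne)
    refine ⟨u :: l, ⟨hl, ?_, ?_⟩, ?_⟩
    · rw [hmem]; simp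
    · refine (ncnt_le_card _ _ (nodup_of_degen G hl) _ ?_).trans hcard
      intro v hv hvS
      rw [Finset.mem_filter]
      exact ⟨(hmem v).1 hv, hvS⟩
    · intro v
      rw [List.mem_cons, hmem, Finset.mem_erase]
      constructor
      · rintro (rfl | h)
        · exact hu
        · exact h.2
      · intro hv
        by_cases hvu : v = u
        · exact Or.inl hvu
        · exact Or.inr ⟨hvu, hv⟩

/-- Complements of `D`-degenerate graphs: dimension `2 D + 1`. Here `G` is the graph of
non-orthogonality, whose complement is `D`-degenerate. -/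
theorem exists_faithful_degen {L : Type*} [Field L] (hL : Cardinal.aleph0 < Cardinal.mk L)
    [Fintype V] [DecidableEq V] [DecidableRel G.Adj]
    (D : ℕ) (hdeg : ∀ W : Finset V, W.Nonempty →
      ∃ u ∈ W, ((W.erase u).filter (fun v => ¬ G.Adj u v)).card ≤ D) :
    ∃ c : V → Fin (2 * D + 1) → L, ∀ u v, u ≠ v → (c u ⬝ᵥ c v ≠ 0 ↔ G.Adj u v) := by
  obtain ⟨l, hl, hmem⟩ := exists_degen G (D := D) _ Finset.univ rfl
    (fun W _ hW => hdeg W hW)
  obtain ⟨c, hc⟩ := exists_faithful_of_degen (d := 2 * D + 1) G hL le_rfl l hl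
  exact ⟨c, fun u v huv => hc u ((hmem u).2 (Finset.mem_univ u)) v
    ((hmem v).2 (Finset.mem_univ v)) huv⟩

end sub

end Pool.Agent.Lib.MP_a2d8aa_co.Rk
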